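import Pool.Agent.helper21.WB.Basic

/-! Part B4a: the cone formula for `μ` and the invariance of `μ`. -/

set_option autoImplicit false
open Matrix MeasureTheory

namespace Pool.Agent.helper21.WB

namespace B4a

/-- minus the Lorentz square -/
noncomputable def Qm (x : I → ℝ) : ℝ := - bl x x

theorem Qm_apply (x : I → ℝ) : Qm x = x o ^ 2 - ∑ i : Fin 4, x (Sum.inl i) ^ 2 := by
  unfold Qm
  rw [bl_apply]
  have : ∑ i : Fin 4, x (Sum.inl i) * x (Sum.inl i) = ∑ i : Fin 4, x (Sum.inl i) ^ 2 :=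
    Finset.sum_congr rfl (fun i _ => by ring)
  rw [this]; ring

theorem continuous_Qm : Continuous Qm := by
  have : Qm = fun x : I → ℝ => x o ^ 2 - ∑ i : Fin 4, x (Sum.inl i) ^ 2 := funext Qm_apply
  rw [this]
  fun_prop

/-- the direction of a vector of the open future cone, in hyperboloid coordinates -/
noncomputable def dir (x : I → ℝ) : X := fun i => x (Sum.inl i) / Real.sqrt (Qm x)

theorem measurable_dir : Measurable dir := by
  unfold dir
  refine measurable_pi_lambda _ (fun i => ?_)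
  exact (measurable_pi_apply _).div (continuous_Qm.measurable.sqrt)

/-- the truncated cone over `E` -/
def cone (E : Set X) : Set (I → ℝ) := {x | 0 < x o ∧ 0 < Qm x ∧ Qm x < 1 ∧ dir x ∈ E}

theorem measurableSet_cone {E : Set X} (hE : MeasurableSet E) : MeasurableSet (cone E) := by
  have h1 : MeasurableSet {x : I → ℝ | 0 < x o} :=
    measurableSet_lt measurable_const (measurable_pi_apply _)
  have h2 : MeasurableSet {x : I → ℝ | 0 < Qm x} :=
    measurableSet_lt measurable_const continuous_Qm.measurable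
  have h3 : MeasurableSet {x : I → ℝ | Qm x < 1} :=
    measurableSet_lt continuous_Qm.measurable measurable_const
  exact h1.inter (h2.inter (h3.inter (measurable_dir hE)))

theorem Qm_smul_lift (r : ℝ) (y : X) : Qm (r • lift y) = r ^ 2 := by
  unfold Qm
  rw [bl_smul_left, bl_smul_right, bl_lift]; ring

theorem dir_smul_lift {r : ℝ} (hr : 0 < r) (y : X) : dir (r • lift y) = y := by
  unfold dir
  ext i
  rw [Qm_smul_lift, Real.sqrt_sq hr.le, Pi.smul_apply, lift_inl, smul_eq_mul,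
    mul_div_cancel_left₀ _ hr.ne']

theorem smul_lift_dir {x : I → ℝ} (h0 : 0 < x o) (hQ : 0 < Qm x) :
    x = Real.sqrt (Qm x) • lift (dir x) := by
  have hs : 0 < Real.sqrt (Qm x) := Real.sqrt_pos.2 hQ
  have h := eq_lift (v := (Real.sqrt (Qm x))⁻¹ • x) (by
    rw [bl_smul_left, bl_smul_right]
    have : bl x x = - Qm x := by unfold Qm; ring
    rw [this]
    have h2 := Real.sq_sqrt hQ.le
    field_simp
    linarith) (by
    rw [Pi.smul_apply, smul_eq_mul]; positivity)
  have h2 : (fun i => ((Real.sqrt (Qm x))⁻¹ • x) (Sum.inl i)) = dir x := by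
    ext i
    rw [Pi.smul_apply, smul_eq_mul]; unfold dir; ring
  rw [h2] at h
  rw [← h, smul_smul, mul_inv_cancel₀ hs.ne', one_smul]

theorem mem_cone {E : Set X} {x : I → ℝ} :
    x ∈ cone E ↔ ∃ y ∈ E, ∃ r : ℝ, 0 < r ∧ r < 1 ∧ x = r • lift y := by
  constructor
  · rintro ⟨h0, hQ, hQ1, hE⟩
    refine ⟨dir x, hE, Real.sqrt (Qm x), Real.sqrt_pos.2 hQ, ?_, smul_lift_dir h0 hQ⟩
    rw [Real.sqrt_lt' one_pos]; simpa using hQ1
  · rintro ⟨y, hy, r, hr, hr1, rfl⟩
    refine ⟨?_, ?_, ?_, ?_⟩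
    · rw [Pi.smul_apply, smul_eq_mul]
      have := lift_o_pos y
      positivity
    · rw [Qm_smul_lift]; positivity
    · rw [Qm_smul_lift]; nlinarith
    · rw [dir_smul_lift hr]; exact hy

/-- splitting off the time coordinate -/
def mk (q : X × ℝ) : I → ℝ := Sum.elim q.1 (fun _ => q.2)

theorem mp_mk : MeasurePreserving mk ((volume : Measure X).prod (volume : Measure ℝ)) volume := by
  have h1 := (volume_measurePreserving_sumPiEquivProdPi_symm (fun _ : Fin 4 ⊕ Unit => ℝ))
  have h2 : MeasurePreserving (Prod.map id (MeasurableEquiv.funUnique Unit ℝ).symm)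
      ((volume : Measure X).prod (volume : Measure ℝ))
      ((volume : Measure X).prod (volume : Measure (Unit → ℝ))) :=
    (MeasurePreserving.id _).prod ((volume_preserving_funUnique Unit ℝ).symm _)
  have h3 := h1.comp h2
  convert h3 using 1
  ext q i
  rcases i with i | i <;> rfl

theorem slice (E : Set X) (p : X) :
    {s : ℝ | mk (p, s) ∈ cone E}
      = (fun r : ℝ => Real.sqrt (r ^ 2 + ∑ i, p i ^ 2)) '' {r : ℝ | r ∈ Set.Ioo (0:ℝ) 1 ∧ r⁻¹ • p ∈ E} := by
  have hP : 0 ≤ ∑ i, p i ^ 2 := Finset.sum_nonneg (fun i _ => sq_nonneg _)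
  ext s
  constructor
  · rintro ⟨h0, hQ, hQ1, hE⟩
    have e0 : mk (p, s) o = s := rfl
    have e1 : Qm (mk (p, s)) = s ^ 2 - ∑ i, p i ^ 2 := by rw [Qm_apply]; rfl
    rw [e0] at h0
    rw [e1] at hQ hQ1
    refine ⟨Real.sqrt (s ^ 2 - ∑ i, p i ^ 2), ⟨⟨Real.sqrt_pos.2 hQ, ?_⟩, ?_⟩, ?_⟩
    · rw [Real.sqrt_lt' one_pos]; simpa using hQ1
    · have : dir (mk (p, s)) = (Real.sqrt (s ^ 2 - ∑ i, p i ^ 2))⁻¹ • p := by
        ext i
        unfold dir
        rw [e1]
        show p i / _ = _ * p i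
        rw [div_eq_inv_mul]
      rwa [← this]
    · show Real.sqrt (Real.sqrt (s ^ 2 - ∑ i, p i ^ 2) ^ 2 + ∑ i, p i ^ 2) = s
      rw [Real.sq_sqrt hQ.le, sub_add_cancel, Real.sqrt_sq h0.le]
  · rintro ⟨r, ⟨⟨hr, hr1⟩, hE⟩, rfl⟩
    show mk (p, Real.sqrt (r ^ 2 + ∑ i, p i ^ 2)) ∈ cone E
    rw [mem_cone]
    refine ⟨r⁻¹ • p, hE, r, hr, hr1, ?_⟩
    ext i
    rcases i with i | i
    · show p i = r * (r⁻¹ * p i)
      field_simp
    · show Real.sqrt (r ^ 2 + ∑ i, p i ^ 2) = r * Real.sqrt (1 + ∑ i, (r⁻¹ * p i) ^ 2)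
      have : ∑ i, (r⁻¹ * p i) ^ 2 = (r ^ 2)⁻¹ * ∑ i, p i ^ 2 := by
        rw [Finset.mul_sum]
        exact Finset.sum_congr rfl (fun i _ => by rw [mul_pow, inv_pow])
      rw [this]
      have h2 : r ^ 2 + ∑ i, p i ^ 2 = r ^ 2 * (1 + (r ^ 2)⁻¹ * ∑ i, p i ^ 2) := by
        field_simp
      rw [h2, Real.sqrt_mul (sq_nonneg r), Real.sqrt_sq hr.le]

theorem measurableSet_slice {E : Set X} (hE : MeasurableSet E) (p : X) :
    MeasurableSet {r : ℝ | r ∈ Set.Ioo (0:ℝ) 1 ∧ r⁻¹ • p ∈ E} := by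
  apply MeasurableSet.inter measurableSet_Ioo
  have : Measurable (fun r : ℝ => r⁻¹ • p) := (measurable_id.inv).smul measurable_const
  exact this hE

theorem vol_slice {E : Set X} (hE : MeasurableSet E) (p : X) :
    (volume : Measure ℝ) {s : ℝ | mk (p, s) ∈ cone E}
      = ∫⁻ r in Set.Ioo (0:ℝ) 1, E.indicator (fun _ => (1 : ENNReal)) (r⁻¹ • p) *
          ENNReal.ofReal (r / Real.sqrt (r ^ 2 + ∑ i, p i ^ 2)) := by
  have hP : 0 ≤ ∑ i, p i ^ 2 := Finset.sum_nonneg (fun i _ => sq_nonneg _)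
  rw [slice]
  set S := {r : ℝ | r ∈ Set.Ioo (0:ℝ) 1 ∧ r⁻¹ • p ∈ E} with hS
  have hSm : MeasurableSet S := measurableSet_slice hE p
  have hd : ∀ r ∈ S, HasDerivWithinAt (fun r : ℝ => Real.sqrt (r ^ 2 + ∑ i, p i ^ 2))
      (r / Real.sqrt (r ^ 2 + ∑ i, p i ^ 2)) S r := by
    intro r hr
    have hr0 : 0 < r := hr.1.1
    have h1 : HasDerivAt (fun r : ℝ => r ^ 2 + ∑ i, p i ^ 2) (2 * r) r := by
      simpa using ((hasDerivAt_pow 2 r).add_const (∑ i, p i ^ 2))
    have h2 := h1.sqrt (by positivity)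
    rw [mul_div_mul_left _ _ (two_ne_zero : (2:ℝ) ≠ 0)] at h2
    exact h2.hasDerivWithinAt
  have hinj : Set.InjOn (fun r : ℝ => Real.sqrt (r ^ 2 + ∑ i, p i ^ 2)) S := by
    intro a ha b hb hab
    have ha0 : 0 < a := ha.1.1
    have hb0 : 0 < b := hb.1.1
    have h1 : Real.sqrt (a ^ 2 + ∑ i, p i ^ 2) = Real.sqrt (b ^ 2 + ∑ i, p i ^ 2) := hab
    rw [Real.sqrt_inj (by positivity) (by positivity)] at h1
    have h2 : a ^ 2 = b ^ 2 := by linarith
    exact (pow_left_inj₀ ha0.le hb0.le two_ne_zero).1 h2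
  have h := lintegral_image_eq_lintegral_abs_deriv_mul hSm hd hinj (fun _ => 1)
  rw [setLIntegral_one] at h
  rw [h, ← lintegral_indicator hSm, ← lintegral_indicator measurableSet_Ioo]
  apply lintegral_congr
  intro r
  by_cases hr : r ∈ Set.Ioo (0:ℝ) 1
  · by_cases hrE : r⁻¹ • p ∈ E
    · have hrS : r ∈ S := ⟨hr, hrE⟩
      rw [Set.indicator_of_mem hrS, Set.indicator_of_mem hr, Set.indicator_of_mem hrE, one_mul,
        mul_one, abs_of_nonneg]
      have := hr.1
      positivity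
    · have hrS : r ∉ S := fun h => hrE h.2
      rw [Set.indicator_of_notMem hrS, Set.indicator_of_mem hr, Set.indicator_of_notMem hrE,
        zero_mul]
  · have hrS : r ∉ S := fun h => hr h.1
    rw [Set.indicator_of_notMem hrS, Set.indicator_of_notMem hr]

theorem vol_scaled {E : Set X} (hE : MeasurableSet E) {r : ℝ} (hr : 0 < r) :
    ∫⁻ p : X, E.indicator (fun _ => (1 : ENNReal)) (r⁻¹ • p) *
          ENNReal.ofReal (r / Real.sqrt (r ^ 2 + ∑ i, p i ^ 2))
      = ENNReal.ofReal (r ^ 4) * μ E := by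
  set g : X → ENNReal := fun y => E.indicator (fun _ => (1 : ENNReal)) y *
    ENNReal.ofReal (1 / Real.sqrt (1 + ∑ i, y i ^ 2)) with hg
  have hgm : Measurable g := by
    apply Measurable.mul
    · exact measurable_const.indicator hE
    · apply ENNReal.measurable_ofReal.comp
      fun_prop
  have e1 : ∀ p : X, E.indicator (fun _ => (1 : ENNReal)) (r⁻¹ • p) *
      ENNReal.ofReal (r / Real.sqrt (r ^ 2 + ∑ i, p i ^ 2)) = g (r⁻¹ • p) := by
    intro p
    rw [hg]
    show _ = E.indicator (fun _ => (1 : ENNReal)) (r⁻¹ • p) *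
      ENNReal.ofReal (1 / Real.sqrt (1 + ∑ i, (r⁻¹ * p i) ^ 2))
    congr 2
    have : ∑ i, (r⁻¹ * p i) ^ 2 = (r ^ 2)⁻¹ * ∑ i, p i ^ 2 := by
      rw [Finset.mul_sum]
      exact Finset.sum_congr rfl (fun i _ => by rw [mul_pow, inv_pow])
    rw [this]
    have h2 : r ^ 2 + ∑ i, p i ^ 2 = r ^ 2 * (1 + (r ^ 2)⁻¹ * ∑ i, p i ^ 2) := by
      field_simp
    rw [h2, Real.sqrt_mul (sq_nonneg r), Real.sqrt_sq hr.le]
    field_simp
  rw [lintegral_congr e1]
  have hmap := Measure.map_addHaar_smul (volume : Measure X) (inv_ne_zero hr.ne')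
  have e2 : ∫⁻ p : X, g (r⁻¹ • p) = ∫⁻ y, g y ∂(Measure.map (fun p : X => r⁻¹ • p) volume) :=
    (lintegral_map hgm (measurable_const_smul _)).symm
  rw [e2, hmap, lintegral_smul_measure]
  have e3 : |((r⁻¹) ^ Module.finrank ℝ X)⁻¹| = r ^ 4 := by
    have : Module.finrank ℝ X = 4 := by simp
    rw [this, inv_pow, inv_inv, abs_of_pos (by positivity)]
  rw [e3, smul_eq_mul]
  congr 1
  unfold μ
  rw [withDensity_apply _ hE, ← lintegral_indicator hE]
  apply lintegral_congr
  intro y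
  by_cases hy : y ∈ E
  · rw [hg, Set.indicator_of_mem hy]
    simp [Set.indicator_of_mem hy]
  · rw [hg, Set.indicator_of_notMem hy]
    simp [Set.indicator_of_notMem hy]

theorem μ_cone' {E : Set X} (hE : MeasurableSet E) :
    μ E = 5 * (volume : Measure (I → ℝ)) (cone E) := by
  have h1 : (volume : Measure (I → ℝ)) (cone E)
      = ((volume : Measure X).prod (volume : Measure ℝ)) (mk ⁻¹' cone E) :=
    (mp_mk.measure_preimage (measurableSet_cone hE).nullMeasurableSet).symm
  rw [h1, Measure.prod_apply (mp_mk.measurable (measurableSet_cone hE))]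
  have h2 : ∀ p : X, (volume : Measure ℝ) (Prod.mk p ⁻¹' (mk ⁻¹' cone E))
      = ∫⁻ r in Set.Ioo (0:ℝ) 1, E.indicator (fun _ => (1 : ENNReal)) (r⁻¹ • p) *
          ENNReal.ofReal (r / Real.sqrt (r ^ 2 + ∑ i, p i ^ 2)) := fun p => vol_slice hE p
  rw [lintegral_congr h2, lintegral_lintegral_swap]
  · have h3 : ∀ r ∈ Set.Ioo (0:ℝ) 1, ∫⁻ p : X, E.indicator (fun _ => (1 : ENNReal)) (r⁻¹ • p) *
          ENNReal.ofReal (r / Real.sqrt (r ^ 2 + ∑ i, p i ^ 2)) = ENNReal.ofReal (r ^ 4) * μ E :=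
      fun r hr => vol_scaled hE hr.1
    rw [setLIntegral_congr_fun measurableSet_Ioo h3, lintegral_mul_const _ (by fun_prop)]
    have h4 : ∫⁻ r in Set.Ioo (0:ℝ) 1, ENNReal.ofReal (r ^ 4) = ENNReal.ofReal (1 / 5) := by
      rw [← ofReal_integral_eq_lintegral_ofReal]
      · congr 1
        rw [← integral_Ioc_eq_integral_Ioo, ← intervalIntegral.integral_of_le zero_le_one,
          integral_pow]
        norm_num
      · exact ((continuous_pow 4).integrableOn_Icc (a := 0) (b := 1)).mono_set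
          Set.Ioo_subset_Icc_self
      · exact Filter.Eventually.of_forall (fun r => by positivity)
    rw [h4, ← mul_assoc]
    have h5 : (5 : ENNReal) * ENNReal.ofReal (1 / 5) = 1 := by
      rw [show (5 : ENNReal) = ENNReal.ofReal 5 by simp, ← ENNReal.ofReal_mul (by norm_num)]
      norm_num
    rw [h5, one_mul]
  · apply Measurable.aemeasurable
    apply Measurable.mul
    · have : Measurable (fun q : X × ℝ => q.2⁻¹ • q.1) := by fun_prop
      exact (measurable_const.indicator hE).comp this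
    · apply ENNReal.measurable_ofReal.comp
      fun_prop

end B4a

/-- cone formula -/
theorem μ_cone (E : Set X) (hE : MeasurableSet E) :
    μ E = 5 * (volume : Measure (I → ℝ))
      {x | ∃ y ∈ E, ∃ r : ℝ, 0 < r ∧ r < 1 ∧ x = r • lift y} := by
  rw [B4a.μ_cone' hE]
  congr 2
  ext x
  exact B4a.mem_cone

theorem abs_det_inG {g : GLI} (hg : InG g) : |g.val.det| = 1 := by
  have h := congrArg Matrix.det hg.1
  rw [Matrix.det_mul, Matrix.det_mul, Matrix.det_transpose] at h
  have hJ : (J : Mat).det * (J : Mat).det = 1 := by rw [← Matrix.det_mul, J_mul_J, Matrix.det_one]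
  have h2 : g.val.det * g.val.det = 1 := by
    have : g.val.det * J.det * g.val.det * J.det = J.det * J.det := by rw [h]
    calc g.val.det * g.val.det = g.val.det * J.det * g.val.det * J.det := by
          have : g.val.det * J.det * g.val.det * J.det
            = g.val.det * g.val.det * (J.det * J.det) := by ring
          rw [this, hJ, mul_one]
      _ = 1 := by rw [this, hJ]
  rcases mul_self_eq_one_iff.1 h2 with h3 | h3 <;> rw [h3] <;> simp

theorem measurable_act (g : GLI) : Measurable (act g) := by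
  unfold act
  refine measurable_pi_lambda _ (fun i => ?_)
  show Measurable (fun y : X => ∑ j, g.val (Sum.inl i) j * lift y j)
  refine Finset.measurable_sum _ (fun j _ => measurable_const.mul ?_)
  rcases j with j | j
  · exact measurable_pi_apply j
  · show Measurable (fun y : X => Real.sqrt (1 + ∑ i, y i ^ 2))
    fun_prop

theorem measurePreserving_act {g : GLI} (hg : InG g) : MeasurePreserving (act g) μ μ := by
  refine ⟨measurable_act g, ?_⟩
  ext E hE
  rw [Measure.map_apply (measurable_act g) hE, B4a.μ_cone' hE,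
    B4a.μ_cone' (measurable_act g hE)]
  congr 1
  have hd := abs_det_inG hg
  have hne : g.val.det ≠ 0 := by
    intro h; rw [h] at hd; simp at hd
  have hmap := Real.map_matrix_volume_pi_eq_smul_volume_pi hne
  have h1 : (volume : Measure (I → ℝ)) (B4a.cone E)
      = (volume : Measure (I → ℝ)) ((Matrix.toLin' g.val) ⁻¹' B4a.cone E) := by
    have hm : Measurable (Matrix.toLin' g.val) :=
      (LinearMap.continuous_of_finiteDimensional _).measurable
    rw [← Measure.map_apply hm (B4a.measurableSet_cone hE), hmap, abs_inv, hd]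
    simp
  rw [h1]
  congr 1
  ext x
  rw [Set.mem_preimage, Matrix.toLin'_apply, B4a.mem_cone, B4a.mem_cone]
  constructor
  · rintro ⟨y, hy, r, hr, hr1, rfl⟩
    exact ⟨act g y, hy, r, hr, hr1, by rw [lift_act hg, Matrix.mulVec_smul]⟩
  · rintro ⟨y, hy, r, hr, hr1, hx⟩
    refine ⟨act g⁻¹ y, ?_, r, hr, hr1, ?_⟩
    · show act g (act g⁻¹ y) ∈ E
      rwa [act_act_inv hg]
    · rw [lift_act hg.inv, ← Matrix.mulVec_smul, ← hx, Matrix.mulVec_mulVec, ← Units.val_mul,
        inv_mul_cancel, Units.val_one, Matrix.one_mulVec]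

end Pool.Agent.helper21.WB
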