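import Pool.Agent.helper42.WB.L1
import Pool.Agent.helper42.WB.B4a

/-! Part L3: the volume of the polytope `PP` is at most `1.23`. -/

set_option autoImplicit false
open Matrix MeasureTheory

namespace Pool.Agent.helper21.WB

namespace L3

/-- `f` multiplies the volume of preimages by `c` -/
structure VM {A B : Type*} [MeasureSpace A] [MeasureSpace B] (f : A → B) (c : ENNReal) : Prop where
  meas : Measurable f
  map : Measure.map f volume = c • (volume : Measure B)

theorem VM.preimage {A B : Type*} [MeasureSpace A] [MeasureSpace B] {f : A → B} {c : ENNReal}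
    (h : VM f c) {S : Set B} (hS : MeasurableSet S) :
    (volume : Measure A) (f ⁻¹' S) = c * volume S := by
  rw [← Measure.map_apply h.meas hS, h.map]
  rfl

theorem VM.comp {A B C : Type*} [MeasureSpace A] [MeasureSpace B] [MeasureSpace C]
    {f : A → B} {g : B → C} {c d : ENNReal} (hf : VM f c) (hg : VM g d) : VM (g ∘ f) (c * d) := by
  refine ⟨hg.meas.comp hf.meas, ?_⟩
  rw [← Measure.map_map hg.meas hf.meas, hf.map, Measure.map_smul, hg.map, smul_smul]

theorem VM.of_mp {A B : Type*} [MeasureSpace A] [MeasureSpace B] {f : A → B}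
    (h : MeasurePreserving f volume volume) : VM f 1 :=
  ⟨h.measurable, by rw [h.map_eq, one_smul]⟩

theorem VM_toLin' (M : Matrix (Fin 5) (Fin 5) ℝ) {d : ℝ} (hd : |M.det| = d) (h0 : 0 < d) :
    VM (fun v : Fin 5 → ℝ => M *ᵥ v) (ENNReal.ofReal d⁻¹) := by
  have hne : M.det ≠ 0 := by
    intro h; rw [h, abs_zero] at hd; exact h0.ne hd
  refine ⟨(LinearMap.continuous_of_finiteDimensional (Matrix.toLin' M)).measurable, ?_⟩
  have := Real.map_matrix_volume_pi_eq_smul_volume_pi hne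
  rw [abs_inv, hd] at this
  exact this

/-- `t`-coordinates in terms of the `x`-coordinates -/
noncomputable def N5 : Matrix (Fin 5) (Fin 5) ℝ :=
  !![1/2,-1/2,-1/2,-1/2,1/2; -1/2,1/2,-1/2,-1/2,1/2; -1/2,-1/2,1/2,-1/2,1/2;
     -1/2,-1/2,-1/2,1/2,1/2; 1/2,1/2,1/2,1/2,-1/2]

theorem det_N5 : |N5.det| = 1/2 := by
  have : N5.det = -1/2 := by
    simp [N5, Matrix.det_succ_row_zero, Fin.sum_univ_succ, Fin.succAbove]
    norm_num
  rw [this]; norm_num

/-- the scaled simplex coordinates -/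
noncomputable def C5 : Matrix (Fin 5) (Fin 5) ℝ :=
  !![0,0,0,-(2/(61/50)),2/(61/50); 0,0,-(61/50),61/50,0; 0,-(61/25),61/25,0,0;
     -1,1,0,0,0; 223/100,223/100,0,0,0]

theorem det_C5 : |C5.det| = 21.7648 := by
  have : C5.det = 21.7648 ∨ C5.det = -21.7648 := by
    simp [C5, Matrix.det_succ_row_zero, Fin.sum_univ_succ, Fin.succAbove]
    norm_num
  rcases this with h | h <;> rw [h] <;> norm_num

/-- the model region -/
def K0 : Set (Fin 5 → ℝ) :=
  {z | (∀ i, 0 ≤ z i) ∧ z 0 * (z 1 + z 2 + z 3 + z 4) + (z 1 + z 2 + z 3 + z 4) ^ 2 < 1}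

theorem measurableSet_K0 : MeasurableSet K0 := by
  apply MeasurableSet.inter
  · have : {z : Fin 5 → ℝ | ∀ i, 0 ≤ z i} = ⋂ i, {z | 0 ≤ z i} := by
      ext z; simp
    show MeasurableSet {z : Fin 5 → ℝ | ∀ i, 0 ≤ z i}
    rw [this]
    exact MeasurableSet.iInter (fun i => measurableSet_le measurable_const (measurable_pi_apply i))
  · have h : Measurable (fun z : Fin 5 → ℝ =>
        z 0 * (z 1 + z 2 + z 3 + z 4) + (z 1 + z 2 + z 3 + z 4) ^ 2) := by fun_prop
    exact measurableSet_lt h measurable_const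

/-- integration of functions of the sum of the coordinates over the orthant -/
theorem lint_sum (g : ℝ → ENNReal) (hg : Measurable g) (k : ℕ) :
    ∫⁻ s : Fin (k + 1) → ℝ, (if ∀ i, 0 ≤ s i then g (∑ i, s i) else 0)
      = ∫⁻ r : ℝ, (if 0 ≤ r then ENNReal.ofReal (r ^ k / k.factorial) * g r else 0) := by
  induction k generalizing g with
  | zero =>
    have h : MeasurePreserving (MeasurableEquiv.funUnique (Fin 1) ℝ).symm (volume : Measure ℝ)
        (@volume (Fin 1 → ℝ) (@MeasureSpace.pi (Fin 1) (Fin.fintype 1) (fun _ => ℝ) _)) := by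
      convert (volume_preserving_funUnique (Fin 1) ℝ).symm
    change (∫⁻ s : Fin 1 → ℝ, (if ∀ i, 0 ≤ s i then g (∑ i, s i) else 0)) = _
    rw [← h.lintegral_comp_emb (MeasurableEquiv.measurableEmbedding _)]
    apply lintegral_congr
    intro r
    simp
  | succ k ih =>
    have h := (volume_preserving_piFinSuccAbove (fun _ : Fin (k + 1 + 1) => ℝ) 0).symm
    rw [← h.lintegral_comp_emb (MeasurableEquiv.measurableEmbedding _)]
    have hm : Measurable (fun q : ℝ × (Fin (k + 1) → ℝ) =>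
        (if ∀ i, 0 ≤ (MeasurableEquiv.piFinSuccAbove (fun _ : Fin (k + 1 + 1) => ℝ) 0).symm q i
          then g (∑ i, (MeasurableEquiv.piFinSuccAbove (fun _ : Fin (k + 1 + 1) => ℝ) 0).symm q i)
          else 0)) := by
      have h1 : Measurable (fun s : Fin (k + 1 + 1) → ℝ =>
          (if ∀ i, 0 ≤ s i then g (∑ i, s i) else 0)) := by
        apply Measurable.ite
        · have : {z : Fin (k + 1 + 1) → ℝ | ∀ i, 0 ≤ z i} = ⋂ i, {z | 0 ≤ z i} := by
            ext z; simp
          rw [this]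
          exact MeasurableSet.iInter
            (fun i => measurableSet_le measurable_const (measurable_pi_apply i))
        · exact hg.comp (by fun_prop)
        · exact measurable_const
      exact h1.comp (MeasurableEquiv.measurable _)
    rw [show (volume : Measure (ℝ × (Fin (k + 1) → ℝ)))
        = (volume : Measure ℝ).prod (volume : Measure (Fin (k + 1) → ℝ)) from rfl,
      lintegral_prod _ hm.aemeasurable]
    have e1 : ∀ a : ℝ, ∫⁻ s : Fin (k + 1) → ℝ,
        (if ∀ i, 0 ≤ (MeasurableEquiv.piFinSuccAbove (fun _ : Fin (k + 1 + 1) => ℝ) 0).symm (a, s) i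
          then g (∑ i, (MeasurableEquiv.piFinSuccAbove (fun _ : Fin (k + 1 + 1) => ℝ) 0).symm (a, s) i)
          else 0)
        = ∫⁻ r : ℝ, (if 0 ≤ a ∧ 0 ≤ r then ENNReal.ofReal (r ^ k / k.factorial) * g (a + r) else 0) := by
      intro a
      have e2 : ∀ s : Fin (k + 1) → ℝ, (if ∀ i, 0 ≤
          (MeasurableEquiv.piFinSuccAbove (fun _ : Fin (k + 1 + 1) => ℝ) 0).symm (a, s) i
          then g (∑ i, (MeasurableEquiv.piFinSuccAbove (fun _ : Fin (k + 1 + 1) => ℝ) 0).symm (a, s) i)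
          else 0) = if ∀ i, 0 ≤ s i then (if 0 ≤ a then g (a + ∑ i, s i) else 0) else 0 := by
        intro s
        have e3 : (MeasurableEquiv.piFinSuccAbove (fun _ : Fin (k + 1 + 1) => ℝ) 0).symm (a, s)
            = Fin.cons a s := by
          ext i
          refine Fin.cases ?_ (fun j => ?_) i <;> simp [MeasurableEquiv.piFinSuccAbove]
        have e6 : (∀ i : Fin (k + 1 + 1), 0 ≤ (Fin.cons a s : Fin (k + 1 + 1) → ℝ) i)
            ↔ (0 ≤ a ∧ ∀ i, 0 ≤ s i) := by
          rw [Fin.forall_fin_succ]; simp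
        have e7 : ∑ i, (Fin.cons a s : Fin (k + 1 + 1) → ℝ) i = a + ∑ i, s i := by
          rw [Fin.sum_univ_succ]; simp
        rw [e3]
        by_cases ha : 0 ≤ a
        · by_cases hs : ∀ i, 0 ≤ s i
          · rw [if_pos (e6.2 ⟨ha, hs⟩), if_pos hs, if_pos ha, e7]
          · rw [if_neg (fun h => hs (e6.1 h).2), if_neg hs]
        · rw [if_neg (fun h => ha (e6.1 h).1)]
          simp [ha]
      rw [lintegral_congr e2]
      by_cases ha : 0 ≤ a
      · simp only [ha, if_true, true_and]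
        exact ih (fun r => g (a + r)) (hg.comp (by fun_prop))
      · simp [ha]
    rw [lintegral_congr e1]
    -- swap
    have hm2 : Measurable (fun q : ℝ × ℝ => (if 0 ≤ q.1 ∧ 0 ≤ q.2 then
        ENNReal.ofReal (q.2 ^ k / k.factorial) * g (q.1 + q.2) else 0)) := by
      apply Measurable.ite
      · exact (measurableSet_le measurable_const measurable_fst).inter
          (measurableSet_le measurable_const measurable_snd)
      · apply Measurable.mul
        · apply ENNReal.measurable_ofReal.comp; fun_prop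
        · exact hg.comp (by fun_prop)
      · exact measurable_const
    rw [lintegral_lintegral_swap hm2.aemeasurable]
    -- shear
    have e4 : ∀ r : ℝ, ∫⁻ a : ℝ, (if 0 ≤ a ∧ 0 ≤ r then
        ENNReal.ofReal (r ^ k / k.factorial) * g (a + r) else 0)
        = ∫⁻ b : ℝ, (if 0 ≤ r ∧ r ≤ b then ENNReal.ofReal (r ^ k / k.factorial) * g b else 0) := by
      intro r
      rw [← lintegral_add_right_eq_self (fun b : ℝ => (if 0 ≤ r ∧ r ≤ b then
        ENNReal.ofReal (r ^ k / k.factorial) * g b else 0)) r]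
      apply lintegral_congr
      intro a
      have : (0 ≤ a ∧ 0 ≤ r) ↔ (0 ≤ r ∧ r ≤ a + r) := by
        constructor
        · rintro ⟨h1, h2⟩; exact ⟨h2, by linarith⟩
        · rintro ⟨h1, h2⟩; exact ⟨by linarith, h1⟩
      simp only [this]
    rw [lintegral_congr e4]
    have hm3 : Measurable (fun q : ℝ × ℝ => (if 0 ≤ q.1 ∧ q.1 ≤ q.2 then
        ENNReal.ofReal (q.1 ^ k / k.factorial) * g q.2 else 0)) := by
      apply Measurable.ite
      · exact (measurableSet_le measurable_const measurable_fst).inter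
          (measurableSet_le measurable_fst measurable_snd)
      · apply Measurable.mul
        · apply ENNReal.measurable_ofReal.comp; fun_prop
        · exact hg.comp (by fun_prop)
      · exact measurable_const
    rw [lintegral_lintegral_swap hm3.aemeasurable]
    apply lintegral_congr
    intro b
    by_cases hb : 0 ≤ b
    · rw [if_pos hb]
      have e5 : ∀ r : ℝ, (if 0 ≤ r ∧ r ≤ b then ENNReal.ofReal (r ^ k / k.factorial) * g b else 0)
          = (Set.Icc 0 b).indicator (fun r => ENNReal.ofReal (r ^ k / k.factorial)) r * g b := by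
        intro r
        by_cases hr : r ∈ Set.Icc 0 b
        · have hr' : 0 ≤ r ∧ r ≤ b := hr
          rw [Set.indicator_of_mem hr, if_pos hr']
        · have hr' : ¬ (0 ≤ r ∧ r ≤ b) := hr
          rw [Set.indicator_of_notMem hr, if_neg hr', zero_mul]
      rw [lintegral_congr e5, lintegral_mul_const _ (by
        apply Measurable.indicator _ measurableSet_Icc
        apply ENNReal.measurable_ofReal.comp; fun_prop), lintegral_indicator measurableSet_Icc]
      congr 1
      rw [← ofReal_integral_eq_lintegral_ofReal]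
      · congr 1
        rw [integral_Icc_eq_integral_Ioc, ← intervalIntegral.integral_of_le hb,
          intervalIntegral.integral_div, integral_pow]
        rw [Nat.factorial_succ]
        push_cast
        have : (k.factorial : ℝ) ≠ 0 := by positivity
        field_simp
        simp
      · exact ((continuous_pow k).div_const _).integrableOn_Icc
      · apply (ae_restrict_iff' measurableSet_Icc).2
        exact Filter.Eventually.of_forall (fun r hr => by
          have := hr.1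
          positivity)
    · rw [if_neg hb]
      have : ∀ r : ℝ, (if 0 ≤ r ∧ r ≤ b then ENNReal.ofReal (r ^ k / k.factorial) * g b else 0)
          = 0 := by
        intro r
        rw [if_neg]
        rintro ⟨h1, h2⟩
        exact hb (h1.trans h2)
      rw [lintegral_congr this, lintegral_zero]

theorem vol_slice (r : ℝ) :
    (volume : Measure ℝ) {a : ℝ | 0 ≤ a ∧ a * r + r ^ 2 < 1}
      ≤ if r ≤ 0 then ⊤ else ENNReal.ofReal ((1 - r ^ 2) / r) := by
  split_ifs with h
  · exact le_top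
  · push Not at h
    have hsub : {a : ℝ | 0 ≤ a ∧ a * r + r ^ 2 < 1} ⊆ Set.Icc 0 ((1 - r ^ 2) / r) := by
      rintro a ⟨h0, h1⟩
      refine ⟨h0, ?_⟩
      rw [le_div_iff₀ h]; linarith
    calc _ ≤ (volume : Measure ℝ) (Set.Icc 0 ((1 - r ^ 2) / r)) := measure_mono hsub
      _ = _ := by rw [Real.volume_Icc, sub_zero]

theorem vol_K0 : (volume : Measure (Fin 5 → ℝ)) K0 ≤ ENNReal.ofReal (1 / 45) := by
  have h := (volume_preserving_piFinSuccAbove (fun _ : Fin 5 => ℝ) 0).symm
  rw [← h.measure_preimage measurableSet_K0.nullMeasurableSet,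
    show (volume : Measure (ℝ × (Fin 4 → ℝ)))
        = (volume : Measure ℝ).prod (volume : Measure (Fin 4 → ℝ)) from rfl,
    Measure.prod_apply_symm (h.measurable measurableSet_K0)]
  set G : ℝ → ENNReal := fun r => (volume : Measure ℝ) {a : ℝ | 0 ≤ a ∧ a * r + r ^ 2 < 1} with hG
  have hGm : Measurable G := by
    have hs : MeasurableSet {q : ℝ × ℝ | 0 ≤ q.2 ∧ q.2 * q.1 + q.1 ^ 2 < 1} := by
      apply MeasurableSet.inter
      · exact measurableSet_le measurable_const measurable_snd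
      · have h : Measurable (fun q : ℝ × ℝ => q.2 * q.1 + q.1 ^ 2) := by fun_prop
        exact measurableSet_lt h measurable_const
    exact measurable_measure_prodMk_left hs
  have e1 : ∀ s : Fin 4 → ℝ, (volume : Measure ℝ) ((fun a => (a, s)) ⁻¹'
      ((MeasurableEquiv.piFinSuccAbove (fun _ : Fin 5 => ℝ) 0).symm ⁻¹' K0))
      = if ∀ i, 0 ≤ s i then G (∑ i, s i) else 0 := by
    intro s
    have e2 : ((fun a => (a, s)) ⁻¹'
      ((MeasurableEquiv.piFinSuccAbove (fun _ : Fin 5 => ℝ) 0).symm ⁻¹' K0))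
        = {a : ℝ | (∀ i, 0 ≤ s i) ∧ 0 ≤ a ∧ a * (∑ i, s i) + (∑ i, s i) ^ 2 < 1} := by
      ext a
      have e3 : (MeasurableEquiv.piFinSuccAbove (fun _ : Fin 5 => ℝ) 0).symm (a, s)
          = Fin.cons a s := by
        ext i
        refine Fin.cases ?_ (fun j => ?_) i <;> simp [MeasurableEquiv.piFinSuccAbove]
      show (MeasurableEquiv.piFinSuccAbove (fun _ : Fin 5 => ℝ) 0).symm (a, s) ∈ K0 ↔ _
      rw [e3]
      have e4 : s 0 + s 1 + s 2 + s 3 = ∑ i, s i := by rw [Fin.sum_univ_four]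
      constructor
      · rintro ⟨h1, h2⟩
        have h2' : a * (s 0 + s 1 + s 2 + s 3) + (s 0 + s 1 + s 2 + s 3) ^ 2 < 1 := h2
        rw [e4] at h2'
        exact ⟨fun i => h1 i.succ, h1 0, h2'⟩
      · rintro ⟨h1, h2, h3⟩
        refine ⟨fun i => ?_, ?_⟩
        · refine Fin.cases ?_ (fun j => ?_) i
          · exact h2
          · exact h1 j
        · show a * (s 0 + s 1 + s 2 + s 3) + (s 0 + s 1 + s 2 + s 3) ^ 2 < 1
          rw [e4]; exact h3
    rw [e2]
    by_cases hs : ∀ i, 0 ≤ s i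
    · rw [if_pos hs, hG]
      congr 1
      ext a
      simp [hs]
    · rw [if_neg hs]
      have : {a : ℝ | (∀ i, 0 ≤ s i) ∧ 0 ≤ a ∧ a * (∑ i, s i) + (∑ i, s i) ^ 2 < 1} = ∅ := by
        ext a; simp [hs]
      rw [this, measure_empty]
  rw [lintegral_congr e1, lint_sum G hGm 3]
  have e5 : ∫⁻ r : ℝ, (if 0 ≤ r then ENNReal.ofReal (r ^ 3 / (Nat.factorial 3)) * G r else 0)
      ≤ ∫⁻ r in Set.Ioc (0:ℝ) 1, ENNReal.ofReal ((r ^ 2 - r ^ 4) / 6) := by
    rw [← lintegral_indicator measurableSet_Ioc]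
    apply lintegral_mono
    intro r
    show (if 0 ≤ r then ENNReal.ofReal (r ^ 3 / (Nat.factorial 3)) * G r else 0) ≤ _
    by_cases h0 : 0 < r
    · rw [if_pos h0.le]
      by_cases h1 : r ≤ 1
      · rw [Set.indicator_of_mem (show r ∈ Set.Ioc (0:ℝ) 1 from ⟨h0, h1⟩)]
        have h2 := vol_slice r
        rw [if_neg (not_le.2 h0)] at h2
        calc ENNReal.ofReal (r ^ 3 / (Nat.factorial 3)) * G r
            ≤ ENNReal.ofReal (r ^ 3 / (Nat.factorial 3)) * ENNReal.ofReal ((1 - r ^ 2) / r) := by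
              gcongr
          _ = ENNReal.ofReal (r ^ 3 / (Nat.factorial 3) * ((1 - r ^ 2) / r)) := by
              rw [ENNReal.ofReal_mul (by positivity)]
          _ = ENNReal.ofReal ((r ^ 2 - r ^ 4) / 6) := by
              congr 1
              have : ((Nat.factorial 3 : ℕ) : ℝ) = 6 := by norm_num [Nat.factorial]
              rw [this]
              field_simp
      · push Not at h1
        have h2 := vol_slice r
        rw [if_neg (not_le.2 h0)] at h2
        have h3 : (1 - r ^ 2) / r ≤ 0 := by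
          apply div_nonpos_of_nonpos_of_nonneg _ h0.le
          nlinarith
        rw [ENNReal.ofReal_of_nonpos h3] at h2
        have h4 : G r = 0 := le_antisymm h2 bot_le
        rw [h4, mul_zero]
        exact bot_le
    · by_cases h00 : r = 0
      · subst h00
        simp
      · have : ¬ (0 ≤ r) := fun h => h0 (lt_of_le_of_ne h (Ne.symm h00))
        rw [if_neg this]
        exact bot_le
  refine e5.trans ?_
  rw [← ofReal_integral_eq_lintegral_ofReal]
  · apply ENNReal.ofReal_le_ofReal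
    rw [← intervalIntegral.integral_of_le zero_le_one, intervalIntegral.integral_div,
      intervalIntegral.integral_sub ((continuous_pow 2).intervalIntegrable _ _)
        ((continuous_pow 4).intervalIntegrable _ _), integral_pow, integral_pow]
    norm_num
  · have : Continuous (fun r : ℝ => (r ^ 2 - r ^ 4) / 6) := by fun_prop
    exact this.integrableOn_Ioc
  · apply (ae_restrict_iff' measurableSet_Ioc).2
    refine Filter.Eventually.of_forall (fun r hr => ?_)
    have h1 := hr.1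
    have h2 := hr.2
    have : r ^ 4 ≤ r ^ 2 := pow_le_pow_of_le_one h1.le h2 (by norm_num)
    show 0 ≤ (r ^ 2 - r ^ 4) / 6
    linarith

/-- reindexing -/
def eI : I ≃ Fin 5 where
  toFun := Sum.elim (fun i => i.castSucc) (fun _ => 4)
  invFun := ![Sum.inl 0, Sum.inl 1, Sum.inl 2, Sum.inl 3, Sum.inr ()]
  left_inv := by
    rintro (i | i)
    · fin_cases i <;> rfl
    · rfl
  right_inv := by
    intro i
    fin_cases i <;> rfl

theorem VM_reindex : VM (fun x : I → ℝ => (fun i => x (eI.symm i) : Fin 5 → ℝ)) 1 := by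
  have h := volume_measurePreserving_piCongrLeft (fun _ : Fin 5 => ℝ) eI
  apply VM.of_mp
  convert h using 1
  ext x i
  obtain ⟨j, rfl⟩ := eI.surjective i
  rw [Equiv.symm_apply_apply]
  exact (Equiv.piCongrLeft_apply_apply (fun _ : Fin 5 => ℝ) eI x j).symm

theorem VM_perm (σ : Equiv.Perm (Fin 5)) :
    VM (fun t : Fin 5 → ℝ => (fun i => t (σ i) : Fin 5 → ℝ)) 1 := by
  have h := volume_measurePreserving_piCongrLeft (fun _ : Fin 5 => ℝ) σ.symm
  apply VM.of_mp
  convert h using 1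
  ext x i
  obtain ⟨j, rfl⟩ := σ.symm.surjective i
  rw [Equiv.apply_symm_apply]
  exact (Equiv.piCongrLeft_apply_apply (fun _ : Fin 5 => ℝ) σ.symm x j).symm

/-- the total map -/
noncomputable def Lmap (σ : Equiv.Perm (Fin 5)) (x : I → ℝ) : Fin 5 → ℝ :=
  C5 *ᵥ (fun i => (N5 *ᵥ (fun j => x (eI.symm j))) (σ i))

theorem VM_Lmap (σ : Equiv.Perm (Fin 5)) :
    VM (Lmap σ) (ENNReal.ofReal 2 * ENNReal.ofReal (21.7648)⁻¹) := by
  have h1 := VM_toLin' N5 det_N5 (by norm_num)
  have h2 := VM_toLin' C5 det_C5 (by norm_num)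
  have h := ((VM_reindex.comp h1).comp (VM_perm σ)).comp h2
  have e : (1 * ENNReal.ofReal ((1 / 2 : ℝ)⁻¹) * 1) * ENNReal.ofReal (21.7648 : ℝ)⁻¹
      = ENNReal.ofReal 2 * ENNReal.ofReal (21.7648)⁻¹ := by
    rw [one_mul, mul_one]
    norm_num
  rw [e] at h
  exact h

theorem key_ineq {u : Fin 5 → ℝ} (h34 : u 3 ≤ u 4) (h23 : u 2 ≤ u 3) (h12 : u 1 ≤ u 2)
    (h01 : u 0 ≤ u 1) (h0 : 0 ≤ u 0 + u 1)
    (hQ : (∑ i, u i) ^ 2 - ∑ i, u i ^ 2 < 1) : C5 *ᵥ u ∈ K0 := by
  have e0 : (C5 *ᵥ u) 0 = 2 / (61/50) * (u 4 - u 3) := by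
    simp [C5, Matrix.mulVec, dotProduct, Fin.sum_univ_succ]; ring
  have e1 : (C5 *ᵥ u) 1 = 61/50 * (u 3 - u 2) := by
    simp [C5, Matrix.mulVec, dotProduct, Fin.sum_univ_succ]; ring
  have e2 : (C5 *ᵥ u) 2 = 61/25 * (u 2 - u 1) := by
    simp [C5, Matrix.mulVec, dotProduct, Fin.sum_univ_succ]; ring
  have e3 : (C5 *ᵥ u) 3 = u 1 - u 0 := by
    simp [C5, Matrix.mulVec, dotProduct, Fin.sum_univ_succ]; ring
  have e4 : (C5 *ᵥ u) 4 = 223/100 * (u 0 + u 1) := by
    simp [C5, Matrix.mulVec, dotProduct, Fin.sum_univ_succ]; ring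
  rw [Fin.sum_univ_five, Fin.sum_univ_five] at hQ
  obtain ⟨a, ha⟩ : ∃ a, a = u 4 - u 3 := ⟨_, rfl⟩
  obtain ⟨b, hb⟩ : ∃ b, b = u 3 - u 2 := ⟨_, rfl⟩
  obtain ⟨c, hc⟩ : ∃ c, c = u 2 - u 1 := ⟨_, rfl⟩
  obtain ⟨d, hd⟩ : ∃ d, d = u 1 - u 0 := ⟨_, rfl⟩
  obtain ⟨f, hf⟩ : ∃ f, f = u 0 + u 1 := ⟨_, rfl⟩
  have ha0 : 0 ≤ a := by linarith
  have hb0 : 0 ≤ b := by linarith
  have hc0 : 0 ≤ c := by linarith
  have hd0 : 0 ≤ d := by linarith
  have hf0 : 0 ≤ f := by linarith
  have k0 : u 0 = (f - d) / 2 := by linarith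
  have k1 : u 1 = (f + d) / 2 := by linarith
  have k2 : u 2 = (f + d) / 2 + c := by linarith
  have k3 : u 3 = (f + d) / 2 + c + b := by linarith
  have k4 : u 4 = (f + d) / 2 + c + b + a := by linarith
  refine ⟨fun i => ?_, ?_⟩
  · fin_cases i
    · show 0 ≤ (C5 *ᵥ u) 0
      rw [e0, ← ha]; positivity
    · show 0 ≤ (C5 *ᵥ u) 1
      rw [e1, ← hb]; positivity
    · show 0 ≤ (C5 *ᵥ u) 2
      rw [e2, ← hc]; positivity
    · show 0 ≤ (C5 *ᵥ u) 3
      rw [e3, ← hd]; positivity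
    · show 0 ≤ (C5 *ᵥ u) 4
      rw [e4, ← hf]; positivity
  · rw [e0, e1, e2, e3, e4, ← ha, ← hb, ← hc, ← hd, ← hf]
    rw [k0, k1, k2, k3, k4] at hQ
    nlinarith [mul_nonneg ha0 hb0, mul_nonneg ha0 hc0, mul_nonneg ha0 hd0, mul_nonneg ha0 hf0,
      mul_nonneg hb0 hb0, mul_nonneg hb0 hc0, mul_nonneg hb0 hd0, mul_nonneg hb0 hf0,
      mul_nonneg hc0 hc0, mul_nonneg hc0 hd0, mul_nonneg hc0 hf0, mul_nonneg hd0 hd0,
      mul_nonneg hd0 hf0, mul_nonneg hf0 hf0]

theorem bl_nr_eq (a : Fin 10) (x : I → ℝ) :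
    bl (nr a) x = (nvt a 0 : ℝ) * x (Sum.inl 0) + nvt a 1 * x (Sum.inl 1)
      + nvt a 2 * x (Sum.inl 2) + nvt a 3 * x (Sum.inl 3) - nvt a 4 * x o := by
  rw [bl_apply, Fin.sum_univ_four]
  rfl

theorem mem_Lmap {x : I → ℝ} (hx : x ∈ B4a.cone PP) : ∃ σ, Lmap σ x ∈ K0 := by
  rw [B4a.mem_cone] at hx
  obtain ⟨y, hy, r, hr, hr1, rfl⟩ := hx
  set x := r • lift y with hxdef
  have hfac : ∀ a, 0 ≤ bl (nr a) x := by
    intro a
    rw [hxdef, bl_smul_right]
    exact mul_nonneg hr.le (hy a)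
  have hQ : B4a.Qm x < 1 := by
    rw [hxdef, B4a.Qm_smul_lift]; nlinarith
  rw [B4a.Qm_apply, Fin.sum_univ_four] at hQ
  obtain ⟨x0, hx0⟩ : ∃ z, z = x (Sum.inl 0) := ⟨_, rfl⟩
  obtain ⟨x1, hx1⟩ : ∃ z, z = x (Sum.inl 1) := ⟨_, rfl⟩
  obtain ⟨x2, hx2⟩ : ∃ z, z = x (Sum.inl 2) := ⟨_, rfl⟩
  obtain ⟨x3, hx3⟩ : ∃ z, z = x (Sum.inl 3) := ⟨_, rfl⟩
  obtain ⟨xo, hxo⟩ : ∃ z, z = x o := ⟨_, rfl⟩
  set t : Fin 5 → ℝ := N5 *ᵥ (fun j => x (eI.symm j)) with ht
  have j0 : x (eI.symm 0) = x0 := hx0.symm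
  have j1 : x (eI.symm 1) = x1 := hx1.symm
  have j2 : x (eI.symm 2) = x2 := hx2.symm
  have j3 : x (eI.symm 3) = x3 := hx3.symm
  have j4 : x (eI.symm 4) = xo := hxo.symm
  have t0 : t 0 = (x0 - x1 - x2 - x3 + xo) / 2 := by
    rw [ht]; simp [N5, Matrix.mulVec, dotProduct, Fin.sum_univ_succ, j0, j1, j2, j3, j4]; ring
  have t1 : t 1 = (-x0 + x1 - x2 - x3 + xo) / 2 := by
    rw [ht]; simp [N5, Matrix.mulVec, dotProduct, Fin.sum_univ_succ, j0, j1, j2, j3, j4]; ring
  have t2 : t 2 = (-x0 - x1 + x2 - x3 + xo) / 2 := by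
    rw [ht]; simp [N5, Matrix.mulVec, dotProduct, Fin.sum_univ_succ, j0, j1, j2, j3, j4]; ring
  have t3 : t 3 = (-x0 - x1 - x2 + x3 + xo) / 2 := by
    rw [ht]; simp [N5, Matrix.mulVec, dotProduct, Fin.sum_univ_succ, j0, j1, j2, j3, j4]; ring
  have t4 : t 4 = (x0 + x1 + x2 + x3 - xo) / 2 := by
    rw [ht]; simp [N5, Matrix.mulVec, dotProduct, Fin.sum_univ_succ, j0, j1, j2, j3, j4]; ring
  have f0 := hfac 0
  have f1 := hfac 1
  have f2 := hfac 2
  have f3 := hfac 3
  have f4 := hfac 4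
  have f5 := hfac 5
  have f6 := hfac 6
  have f7 := hfac 7
  have f8 := hfac 8
  have f9 := hfac 9
  rw [bl_nr_eq, ← hx0, ← hx1, ← hx2, ← hx3, ← hxo] at f0 f1 f2 f3 f4 f5 f6 f7 f8 f9
  simp [nvt] at f0 f1 f2 f3 f4 f5 f6 f7 f8 f9
  have hsum : ∀ i j : Fin 5, i ≠ j → 0 ≤ t i + t j := by
    intro i j hij
    fin_cases i <;> fin_cases j <;> first
      | exact absurd rfl hij
      | (simp only [Fin.zero_eta, Fin.mk_one, Fin.reduceFinMk, t0, t1, t2, t3, t4]; linarith)
  have hQt : (∑ i, t i) ^ 2 - ∑ i, t i ^ 2 < 1 := by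
    rw [Fin.sum_univ_five, Fin.sum_univ_five, t0, t1, t2, t3, t4]
    rw [← hx0, ← hx1, ← hx2, ← hx3, ← hxo] at hQ
    nlinarith
  set σ := Tuple.sort t with hσ
  have hmono := Tuple.monotone_sort t
  refine ⟨σ, ?_⟩
  show C5 *ᵥ (fun i => t (σ i)) ∈ K0
  apply key_ineq
  · exact hmono (by decide)
  · exact hmono (by decide)
  · exact hmono (by decide)
  · exact hmono (by decide)
  · exact hsum _ _ (fun h => absurd (σ.injective h) (by decide))
  · have s1 : ∑ i, t (σ i) = ∑ i, t i := Equiv.sum_comp σ t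
    have s2 : ∑ i, t (σ i) ^ 2 = ∑ i, t i ^ 2 := Equiv.sum_comp σ (fun i => t i ^ 2)
    rw [s1, s2]; exact hQt

end L3

theorem continuous_lift' : Continuous lift := by
  refine continuous_pi (fun i => ?_)
  rcases i with i | i
  · exact continuous_apply i
  · show Continuous (fun y : X => Real.sqrt (1 + ∑ i, y i ^ 2))
    fun_prop

theorem isClosed_PP : IsClosed PP := by
  have : PP = ⋂ a, {y : X | 0 ≤ bl (nr a) (lift y)} := by
    ext y; simp [PP]
  rw [this]
  refine isClosed_iInter (fun a => isClosed_le continuous_const ?_)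
  have h : (fun y : X => bl (nr a) (lift y))
      = fun y => ∑ i : Fin 4, nr a (Sum.inl i) * lift y (Sum.inl i) - nr a o * lift y o :=
    funext (fun y => bl_apply _ _)
  rw [h]
  have := continuous_lift'
  have hc : ∀ i, Continuous (fun y : X => lift y i) := fun i => (continuous_apply i).comp this
  exact (continuous_finsetSum _ (fun i _ => continuous_const.mul (hc _))).sub
    (continuous_const.mul (hc _))

theorem μ_PP_le : μ PP ≤ ENNReal.ofReal (123 / 100) := by
  have hm : MeasurableSet PP := isClosed_PP.measurableSet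
  rw [B4a.μ_cone' hm]
  have hsub : B4a.cone PP ⊆ ⋃ σ : Equiv.Perm (Fin 5), L3.Lmap σ ⁻¹' L3.K0 := by
    intro x hx
    obtain ⟨σ, h⟩ := L3.mem_Lmap hx
    exact Set.mem_iUnion.2 ⟨σ, h⟩
  have h1 : (volume : Measure (I → ℝ)) (B4a.cone PP)
      ≤ ∑ σ : Equiv.Perm (Fin 5), ENNReal.ofReal 2 * ENNReal.ofReal (21.7648)⁻¹ *
        ENNReal.ofReal (1 / 45) := by
    refine (measure_mono hsub).trans ((measure_iUnion_fintype_le _ _).trans ?_)
    refine Finset.sum_le_sum (fun σ _ => ?_)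
    rw [(L3.VM_Lmap σ).preimage L3.measurableSet_K0]
    gcongr
    exact L3.vol_K0
  refine (mul_le_mul_right h1 _).trans ?_
  rw [Finset.sum_const, Finset.card_univ, Fintype.card_perm, Fintype.card_fin,
    ← ENNReal.ofReal_mul (by norm_num), ← ENNReal.ofReal_mul (by norm_num), nsmul_eq_mul,
    show (5 : ENNReal) = ENNReal.ofReal 5 by simp,
    show ((Nat.factorial 5 : ℕ) : ENNReal) = ENNReal.ofReal 120 by
      rw [show Nat.factorial 5 = 120 from rfl]; simp,
    ← ENNReal.ofReal_mul (by norm_num), ← ENNReal.ofReal_mul (by norm_num)]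
  apply ENNReal.ofReal_le_ofReal
  norm_num

end Pool.Agent.helper21.WB
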