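import Pool.Agent.helper42.WB.L6
import Pool.Agent.helper19.WB.B5b
import Pool.Agent.helper42.WB.L3
import Pool.Agent.helper5.WB.L2
import Pool.Agent.helper25.WB.L4
import Pool.Agent.helper33.WB.L5

/-!
Part L: assembly of `many_lattices` (several lemmas are taken from helper53's version).
-/

set_option autoImplicit false
open Matrix MeasureTheory

namespace Pool.Agent.helper21.WB

namespace LA

theorem conj_refl (Γ : Subgroup GLI) : Conj Γ Γ :=
  ⟨1, InG.one, fun h => by simp⟩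

theorem conj_symm {Γ Γ' : Subgroup GLI} (h : Conj Γ Γ') : Conj Γ' Γ := by
  obtain ⟨g, hg, H⟩ := h
  refine ⟨g⁻¹, hg.inv, fun x => ?_⟩
  rw [H, inv_inv]
  have : g⁻¹ * (g * x * g⁻¹) * g = x := by group
  rw [this]

/-- independent sets -/
theorem exists_indep {α : Type*} [DecidableEq α] (A : Finset α) (r : α → α → Prop)
    [DecidableRel r] (hr : ∀ x, r x x) (hs : ∀ x y, r x y → r y x) (k : ℕ)
    (hk : ∀ x ∈ A, (A.filter (r x)).card ≤ k) :
    ∃ S ⊆ A, (∀ x ∈ S, ∀ y ∈ S, x ≠ y → ¬ r x y) ∧ A.card ≤ S.card * k := by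
  classical
  let 𝒮 : Finset (Finset α) := A.powerset.filter (fun S => ∀ x ∈ S, ∀ y ∈ S, x ≠ y → ¬ r x y)
  have hne : 𝒮.Nonempty := ⟨∅, by simp [𝒮]⟩
  obtain ⟨S, hS, hmax⟩ := Finset.exists_max_image 𝒮 Finset.card hne
  rw [Finset.mem_filter, Finset.mem_powerset] at hS
  refine ⟨S, hS.1, hS.2, ?_⟩
  have hcov : A ⊆ S.biUnion (fun s => A.filter (r s)) := by
    intro y hy
    rw [Finset.mem_biUnion]
    by_cases hyS : y ∈ S
    · exact ⟨y, hyS, Finset.mem_filter.mpr ⟨hy, hr y⟩⟩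
    · by_contra hcon
      push Not at hcon
      have h1 : ∀ s ∈ S, ¬ r s y := by
        intro s hs' h
        exact hcon s hs' (Finset.mem_filter.mpr ⟨hy, h⟩)
      have h2 : insert y S ∈ 𝒮 := by
        rw [Finset.mem_filter, Finset.mem_powerset]
        refine ⟨Finset.insert_subset hy hS.1, ?_⟩
        intro a ha b hb hab
        rw [Finset.mem_insert] at ha hb
        rcases ha with rfl | ha <;> rcases hb with rfl | hb
        · exact absurd rfl hab
        · intro h; exact h1 b hb (hs _ _ h)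
        · exact h1 a ha
        · exact hS.2 a ha b hb hab
      have h3 := hmax _ h2
      rw [Finset.card_insert_of_notMem hyS] at h3
      omega
  calc A.card ≤ (S.biUnion (fun s => A.filter (r s))).card := Finset.card_le_card hcov
    _ ≤ S.card * k := Finset.card_biUnion_le_card_mul _ _ _ (fun s hs' => hk s (hS.1 hs'))

theorem disc_of_le {Γ Γ' : Subgroup GLI} (hΓ : Disc Γ) (hle : Γ' ≤ Γ) : Disc Γ' where
  inG := fun γ hγ => hΓ.inG γ (hle hγ)
  disc := by
    have := hΓ.disc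
    exact DiscreteTopology.of_subset (s := (Γ : Set GLI)) this hle

theorem asymp (B K : ℕ) : ∃ V₀ : ℝ, ∀ V : ℝ, V₀ ≤ V →
    1 ≤ ⌊3 * V / 40⌋₊ ∧
    Real.exp ((11 / 50) * V * Real.log V) * ((B * (8 * ⌊3 * V / 40⌋₊) ^ K : ℕ) : ℝ) ≤
      ((⌊3 * V / 40⌋₊ ^ (3 * ⌊3 * V / 40⌋₊) : ℕ) : ℝ) := by
  have h1 : ∀ᶠ V : ℝ in Filter.atTop,
      Real.log (B + 1) + K * Real.log V ≤ (1 / 10) * V := by
    have hK : (0:ℝ) < 1 / (20 * (K + 1)) := by positivity
    have h2 := Real.isLittleO_log_id_atTop.def (c := 1 / (20 * (K + 1))) hK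
    have h3 := Filter.eventually_ge_atTop (20 * Real.log (B + 1))
    filter_upwards [h2, h3, Filter.eventually_ge_atTop (1:ℝ)] with V hV hV' hV1
    simp only [id, Real.norm_eq_abs] at hV
    rw [abs_of_nonneg (Real.log_nonneg hV1), abs_of_nonneg (by linarith)] at hV
    have h4 : (K:ℝ) * Real.log V ≤ (K + 1) * (1 / (20 * (K + 1)) * V) := by
      have hl := Real.log_nonneg hV1
      calc (K:ℝ) * Real.log V ≤ (K + 1) * Real.log V := by nlinarith
        _ ≤ (K + 1) * (1 / (20 * (K + 1)) * V) := by gcongr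
    have h5 : ((K:ℝ) + 1) * (1 / (20 * (K + 1)) * V) = V / 20 := by
      have : (K:ℝ) + 1 ≠ 0 := by positivity
      field_simp
    linarith
  obtain ⟨V₁, hV₁⟩ := Filter.eventually_atTop.mp h1
  refine ⟨max V₁ (max 3000 (Real.exp 400)), fun V hV => ?_⟩
  have hVa : V₁ ≤ V := (le_max_left _ _).trans hV
  have hVb : (3000:ℝ) ≤ V := ((le_max_left _ _).trans (le_max_right _ _)).trans hV
  have hVc : Real.exp 400 ≤ V := ((le_max_right _ _).trans (le_max_right _ _)).trans hV
  have hlog : 400 ≤ Real.log V := (Real.le_log_iff_exp_le (by linarith)).mpr hVc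
  have hlog2 := hV₁ V hVa
  set m := ⌊3 * V / 40⌋₊ with hm
  have hm1 : (m:ℝ) ≤ 3 * V / 40 := Nat.floor_le (by positivity)
  have hm2 : 3 * V / 40 < m + 1 := Nat.lt_floor_add_one _
  have hm0 : 0 < m := by
    have : (0:ℝ) < m := by linarith
    exact_mod_cast this
  have hmR : (0:ℝ) < m := by exact_mod_cast hm0
  refine ⟨hm0, ?_⟩
  have hN1 : (28 / 125) * V ≤ 3 * (m:ℝ) := by linarith
  have hlogN : Real.log V - 3 ≤ Real.log (m:ℝ) := by
    have h6 : Real.log ((1 / 15) * V) ≤ Real.log (m:ℝ) :=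
      Real.log_le_log (by positivity) (by linarith)
    rw [Real.log_mul (by norm_num) (by linarith)] at h6
    have h7 : -(3 : ℝ) ≤ Real.log (1 / 15) := by
      rw [Real.le_log_iff_exp_le (by norm_num), Real.exp_neg]
      have h9 : (15 : ℝ) ≤ Real.exp 3 := by
        have := Real.exp_one_gt_d9
        have h10 : Real.exp 3 = Real.exp 1 ^ 3 := by
          rw [← Real.exp_nat_mul]; norm_num
        rw [h10]
        calc (15 : ℝ) ≤ 2.7182818283 ^ 3 := by norm_num
          _ ≤ Real.exp 1 ^ 3 := by gcongr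
      calc (Real.exp 3)⁻¹ ≤ (15 : ℝ)⁻¹ := by gcongr
        _ = 1 / 15 := by norm_num
    linarith
  have hkey : (11 / 50) * V * Real.log V + (Real.log (B + 1) + K * Real.log V) ≤
      3 * (m:ℝ) * Real.log (m:ℝ) := by
    have h13 : (28 / 125) * V * (Real.log V - 3) ≤ 3 * (m:ℝ) * Real.log (m:ℝ) := by
      apply mul_le_mul hN1 hlogN (by linarith) (by positivity)
    have h14 : (11 / 50) * V * Real.log V + (1 / 10) * V ≤ (28 / 125) * V * (Real.log V - 3) := by
      nlinarith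
    linarith
  have hpow : ((m ^ (3 * m) : ℕ) : ℝ) = Real.exp (3 * (m:ℝ) * Real.log (m:ℝ)) := by
    have e : 3 * (m:ℝ) * Real.log (m:ℝ) = Real.log (m:ℝ) * (3 * m : ℕ) := by
      push_cast; ring
    rw [e, Real.exp_mul, Real.exp_log hmR, Real.rpow_natCast]
    push_cast
    rfl
  rw [hpow]
  have h8 : ((8 * m : ℕ) : ℝ) ≤ V := by push_cast; linarith
  have h14 : ((B * (8 * m) ^ K : ℕ) : ℝ) ≤ Real.exp (Real.log (B + 1) + K * Real.log V) := by
    rw [Real.exp_add, Real.exp_log (by positivity), mul_comm (K:ℝ), Real.exp_mul,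
      Real.exp_log (by linarith), Real.rpow_natCast]
    push_cast at h8 ⊢
    gcongr
    linarith
  calc Real.exp ((11 / 50) * V * Real.log V) * ((B * (8 * m) ^ K : ℕ) : ℝ)
      ≤ Real.exp ((11 / 50) * V * Real.log V) *
        Real.exp (Real.log (B + 1) + K * Real.log V) := by gcongr
    _ = Real.exp ((11 / 50) * V * Real.log V + (Real.log (B + 1) + K * Real.log V)) := by
        rw [← Real.exp_add]
    _ ≤ _ := Real.exp_le_exp.2 hkey

end LA

theorem many_lattices : ∃ V₀ : ℝ, ∀ V : ℝ, V₀ ≤ V → ∃ S : Finset (Subgroup GLI),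
    (∀ Γ ∈ S, ∃ F, Lat Γ F ∧ μ F ≤ ENNReal.ofReal V) ∧
    (∀ Γ ∈ S, ∀ Γ' ∈ S, Γ ≠ Γ' → ¬ Conj Γ Γ') ∧
    Real.exp ((11 / 50) * V * Real.log V) ≤ (S.card : ℝ) := by
  classical
  obtain ⟨C, k, hCk⟩ := exists_mult
  set R := Wg.relIndex GZ with hR
  obtain ⟨V₀, hV₀⟩ := LA.asymp (C ^ 30 * R + 1) (k * 30 + 1)
  refine ⟨max V₀ 0, fun V hV => ?_⟩
  obtain ⟨hm, hcount⟩ := hV₀ V ((le_max_left _ _).trans hV)
  have hV0 : 0 ≤ V := (le_max_right _ _).trans hV
  set m := ⌊3 * V / 40⌋₊ with hmdef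
  obtain ⟨A, hA, hAcard⟩ := many_subgroups m hm
  have hle : ∀ K : Subgroup WC, K.map rep ≤ Wg := by
    rintro K _ ⟨x, -, rfl⟩
    exact ⟨x, rfl⟩
  have hidx : ∀ K ∈ A, (K.map rep).relIndex Wg = 8 * m := by
    intro K hK
    rw [Wg, MonoidHom.range_eq_map, Subgroup.relIndex_map_map_of_injective _ _ rep_injective,
      Subgroup.relIndex_top_right, hA K hK]
  have hinj : Function.Injective (fun K : Subgroup WC => K.map rep) :=
    Subgroup.map_injective rep_injective
  set N : ℕ := (C ^ 30 * R + 1) * (8 * m) ^ (k * 30 + 1) with hN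
  obtain ⟨S, hSA, hind, hScard⟩ := LA.exists_indep A
    (fun K K' => Conj (K.map rep) (K'.map rep)) (fun K => LA.conj_refl _)
    (fun K K' h => LA.conj_symm h) N (by
      intro K hK
      obtain ⟨M, hM1, hM2, hM3⟩ := hCk (8 * m) (by omega) (K.map rep) (hle K) (hidx K hK)
      have h := card_conj_le M (8 * m) hM1 (by omega) (K.map rep) (hle K) hM3
        ((A.filter (fun K' => Conj (K.map rep) (K'.map rep))).image (fun K => K.map rep)) (by
          intro H' hH'
          rw [Finset.mem_image] at hH'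
          obtain ⟨K', hK', rfl⟩ := hH'
          rw [Finset.mem_filter] at hK'
          exact ⟨hle K', hidx K' hK'.1, hK'.2⟩)
      rw [Finset.card_image_of_injective _ hinj] at h
      refine h.trans ?_
      calc M ^ 30 * (R * (8 * m)) ≤ (C * (8 * m) ^ k) ^ 30 * (R * (8 * m)) := by gcongr
        _ = C ^ 30 * R * (8 * m) ^ (k * 30 + 1) := by rw [mul_pow, ← pow_mul, pow_succ]; ring
        _ ≤ N := by rw [hN]; gcongr; omega)
  refine ⟨S.image (fun K => K.map rep), ?_, ?_, ?_⟩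
  · intro Γ hΓ
    rw [Finset.mem_image] at hΓ
    obtain ⟨K, hK, rfl⟩ := hΓ
    obtain ⟨F', hF', hμ⟩ := fd_subgroup disc_Wg isFD_PP (hle K) (8 * m) (hidx K (hSA hK)) (by omega)
    have hle2 : μ F' ≤ ENNReal.ofReal V := by
      rw [hμ]
      calc ((8 * m : ℕ) : ENNReal) * μ PP
          ≤ ((8 * m : ℕ) : ENNReal) * ENNReal.ofReal (123 / 100) := by
            gcongr; exact μ_PP_le
        _ = ENNReal.ofReal ((8 * m : ℕ) * (123 / 100)) := by
            rw [ENNReal.ofReal_mul (by positivity), ENNReal.ofReal_natCast]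
        _ ≤ ENNReal.ofReal V := by
            apply ENNReal.ofReal_le_ofReal
            have : (m:ℝ) ≤ 3 * V / 40 := Nat.floor_le (by positivity)
            push_cast
            linarith
    refine ⟨F', { toDisc := LA.disc_of_le disc_Wg (hle K), fd := hF', fin := ?_ }, hle2⟩
    exact lt_of_le_of_lt hle2 ENNReal.ofReal_lt_top
  · intro Γ hΓ Γ' hΓ' hne
    rw [Finset.mem_image] at hΓ hΓ'
    obtain ⟨K, hK, rfl⟩ := hΓ
    obtain ⟨K', hK', rfl⟩ := hΓ'
    exact hind K hK K' hK' (fun h => hne (by rw [h]))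
  · rw [Finset.card_image_of_injective _ hinj]
    have h1 : ((m ^ (3 * m) : ℕ) : ℝ) ≤ S.card * (N : ℝ) := by
      exact_mod_cast hAcard.trans hScard
    have h2 : (0:ℝ) < (N : ℝ) := by
      have : 0 < N := by rw [hN]; positivity
      exact_mod_cast this
    exact le_of_mul_le_mul_right (hcount.trans h1) h2

end Pool.Agent.helper21.WB
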