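import Pool.Agent.helper42.WB.LDefs

/-! Part L1: the geometric representation and integrality. -/

set_option autoImplicit false
open Matrix MeasureTheory

namespace Pool.Agent.helper21.WB

theorem Kre_cmx (a b : Fin 10) : CxA.Kre cmx a b = -2 * (gr a b : ℝ) := by
  unfold CxA.Kre
  rw [cmx_apply]
  by_cases hab : a = b
  · subst hab; rw [if_pos rfl, CxA.kc_one, gr_self]; norm_num
  · rw [if_neg hab]
    rcases gr_cases a b hab with h | h
    · rw [if_pos h, CxA.kc_two, h]; norm_num
    · rw [if_neg (by rw [h]; decide), CxA.kc_zero, h]; norm_num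

theorem rf_mulVec (a : Fin 10) (v : I → ℝ) :
    (rf a).val *ᵥ v = v - (2 * bl (nr a) v) • nr a := rfM_mulVec a v

theorem rfM_inG (a : Fin 10) : InG (rf a) := by
  refine ⟨?_, ?_⟩
  · rw [rf_val]
    have hT : (rfM a)ᵀ = J * rfM a * J := by
      unfold rfM
      rw [Matrix.transpose_sub, Matrix.transpose_one, Matrix.transpose_smul,
        Matrix.transpose_vecMulVec, Matrix.mul_sub, Matrix.sub_mul, Matrix.mul_one, J_mul_J,
        Matrix.mul_smul, Matrix.smul_mul, Matrix.mul_vecMulVec, Matrix.vecMulVec_mul]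
      have : (J *ᵥ nr a) ᵥ* J = nr a := by
        rw [← Matrix.mulVec_transpose, J_transpose, Matrix.mulVec_mulVec, J_mul_J,
          Matrix.one_mulVec]
      rw [this]
    rw [hT]
    calc J * rfM a * J * J * rfM a = J * rfM a * (J * J) * rfM a := by
          simp only [Matrix.mul_assoc]
      _ = J * (rfM a * rfM a) := by rw [J_mul_J, Matrix.mul_one, Matrix.mul_assoc]
      _ = J := by rw [rfM_sq, Matrix.mul_one]
  · rw [rf_val]
    unfold rfM
    rw [Matrix.sub_apply, Matrix.one_apply_eq, Matrix.smul_apply, Matrix.vecMulVec_apply]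
    have : (J *ᵥ nr a) (Sum.inr ()) = - nr a (Sum.inr ()) := by
      simp [J, Matrix.mulVec, dotProduct, Fintype.sum_sum_type, Matrix.fromBlocks_apply₂₁,
        Matrix.fromBlocks_apply₂₂]
    rw [this, smul_eq_mul]
    nlinarith [sq_nonneg (nr a (Sum.inr ()))]

theorem rep_inG (w : WC) : InG (rep w) := by
  obtain ⟨l, rfl⟩ := csC.wordProd_surjective w
  induction l with
  | nil => rw [csC.wordProd_nil, map_one]; exact InG.one
  | cons a l ih =>
    rw [csC.wordProd_cons, map_mul, rep_simple]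
    exact (rfM_inG a).mul ih

/-- the linear map sending the simple roots to the normals -/
noncomputable def phiN (v : Fin 10 → ℝ) : I → ℝ := ∑ b, v b • nr b

theorem bl_phiN (a : Fin 10) (v : Fin 10 → ℝ) :
    bl (nr a) (phiN v) = ∑ b, v b * (gr a b : ℝ) := by
  unfold phiN
  have h : ∀ s : Finset (Fin 10), bl (nr a) (∑ b ∈ s, v b • nr b) = ∑ b ∈ s, v b * (gr a b : ℝ) := by
    intro s
    induction s using Finset.induction_on with
    | empty => rw [Finset.sum_empty, Finset.sum_empty, bl_apply]; simp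
    | insert b s hb ih =>
      rw [Finset.sum_insert hb, Finset.sum_insert hb, bl_add_right, ih, bl_smul_right, bl_nr]
  exact h _

theorem phiN_sig (a : Fin 10) (v : Fin 10 → ℝ) :
    phiN (CxA.sig cmx a v) = (rf a).val *ᵥ phiN v := by
  rw [rf_mulVec, bl_phiN]
  unfold CxA.sig
  rw [CxA.opK_apply, CxA.rowf_apply]
  have : phiN (v + (∑ t, CxA.Kre cmx a t * v t) • CxA.al ℝ a)
      = phiN v + (∑ t, CxA.Kre cmx a t * v t) • nr a := by
    unfold phiN
    have e : ∀ b, (v + (∑ t, CxA.Kre cmx a t * v t) • CxA.al ℝ a) b • nr b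
        = v b • nr b + (∑ t, CxA.Kre cmx a t * v t) • ((CxA.al ℝ a : Fin 10 → ℝ) b • nr b) := by
      intro b
      rw [Pi.add_apply, Pi.smul_apply, add_smul, smul_eq_mul, mul_smul]
    rw [Finset.sum_congr rfl (fun b _ => e b), Finset.sum_add_distrib, ← Finset.smul_sum]
    congr 2
    rw [Finset.sum_eq_single a]
    · simp [CxA.al]
    · intro b _ hb; simp [CxA.al, hb]
    · simp
  rw [this, sub_eq_add_neg, ← neg_smul]
  congr 2
  rw [Finset.mul_sum, ← Finset.sum_neg_distrib]
  refine Finset.sum_congr rfl (fun b _ => ?_)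
  rw [Kre_cmx]; ring

theorem phiN_rho (w : WC) (v : Fin 10 → ℝ) :
    phiN (CxA.rho csC w v) = (rep w).val *ᵥ phiN v := by
  obtain ⟨l, rfl⟩ := csC.wordProd_surjective w
  induction l with
  | nil => rw [csC.wordProd_nil, CxA.rho_one_apply, map_one, Units.val_one, Matrix.one_mulVec]
  | cons a l ih =>
    have e : rep (csC.simple a * csC.wordProd l) = rf a * rep (csC.wordProd l) := by
      rw [map_mul, rep_simple]
    rw [csC.wordProd_cons, e, CxA.rho_mul_apply, CxA.rho_simple, phiN_sig, ih,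
      Units.val_mul, Matrix.mulVec_mulVec]

theorem phiN_al (a : Fin 10) : phiN (CxA.al ℝ a) = nr a := by
  unfold phiN
  rw [Finset.sum_eq_single a]
  · simp [CxA.al]
  · intro b _ hb; simp [CxA.al, hb]
  · simp

theorem bl_sum_left {ι : Type*} (s : Finset ι) (f : ι → I → ℝ) (w : I → ℝ) :
    bl (∑ b ∈ s, f b) w = ∑ b ∈ s, bl (f b) w := by
  classical
  induction s using Finset.induction_on with
  | empty => rw [Finset.sum_empty, Finset.sum_empty, bl_apply]; simp
  | insert b s hb ih =>
    rw [Finset.sum_insert hb, Finset.sum_insert hb, bl_add_left, ih]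

theorem bl_phiN_lift (v : Fin 10 → ℝ) (u : I → ℝ) :
    bl (phiN v) u = ∑ b, v b * bl (nr b) u := by
  unfold phiN
  rw [bl_sum_left]
  exact Finset.sum_congr rfl (fun b _ => bl_smul_left _ _ _)

/-- interior points of `PP` leave `PP` -/
theorem act_not_mem_PP {w : WC} (hw : w ≠ 1) {y : X} (hy : ∀ a, 0 < bl (nr a) (lift y)) :
    act (rep w) y ∉ PP := by
  intro hmem
  have hw' : w⁻¹ ≠ 1 := inv_ne_one.2 hw
  obtain ⟨s, hs⟩ := csC.exists_rightDescent_of_ne_one hw'
  have h1 := hmem s
  rw [lift_act (rep_inG w)] at h1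
  have h2 : bl (nr s) ((rep w).val *ᵥ lift y) = bl ((rep w⁻¹).val *ᵥ nr s) (lift y) := by
    rw [← bl_mulVec (rep_inG w).1 ((rep w⁻¹).val *ᵥ nr s) (lift y), Matrix.mulVec_mulVec,
      ← Units.val_mul, ← map_mul, mul_inv_cancel, map_one, Units.val_one, Matrix.one_mulVec]
  rw [h2, ← phiN_al, ← phiN_rho, bl_phiN_lift] at h1
  have h3 : ∀ b, CxA.rho csC w⁻¹ (CxA.al ℝ s) b ≤ 0 := fun b => CxA.rho_nonpos csC hs b
  have h4 : CxA.rho csC w⁻¹ (CxA.al ℝ s) ≠ 0 := CxA.rho_al_ne_zero csC w⁻¹ s
  obtain ⟨b, hb⟩ : ∃ b, CxA.rho csC w⁻¹ (CxA.al ℝ s) b ≠ 0 := by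
    by_contra hcon
    push Not at hcon
    exact h4 (funext hcon)
  have h5 : ∑ b, CxA.rho csC w⁻¹ (CxA.al ℝ s) b * bl (nr b) (lift y) < ∑ b : Fin 10, (0:ℝ) := by
    refine Finset.sum_lt_sum (fun b _ => mul_nonpos_of_nonpos_of_nonneg (h3 b) (hy b).le)
      ⟨b, Finset.mem_univ _, ?_⟩
    exact mul_neg_of_neg_of_pos (lt_of_le_of_ne (h3 b) hb) (hy b)
  simp only [Finset.sum_const_zero] at h5
  linarith

/-- the vector `(1,1,1,1;3)` -/
noncomputable def vc : I → ℝ := Sum.elim (fun _ => 1) (fun _ => 3)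

theorem bl_nr_vc (a : Fin 10) : bl (nr a) vc = 1 := by
  rw [bl_apply, Fin.sum_univ_four]
  unfold nr nv vc o
  simp only [Sum.elim_inl, Sum.elim_inr]
  have : nvt a 0 + nvt a 1 + nvt a 2 + nvt a 3 - nvt a 4 * 3 = 1 := by revert a; decide
  have h2 : ((nvt a 0 + nvt a 1 + nvt a 2 + nvt a 3 - nvt a 4 * 3 : ℤ) : ℝ) = 1 := by
    rw [this]; norm_num
  push_cast at h2
  simpa using h2

theorem bl_vc_vc : bl vc vc = -5 := by
  rw [bl_apply, Fin.sum_univ_four]
  unfold vc o
  simp only [Sum.elim_inl, Sum.elim_inr]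
  norm_num

/-- the center of the polytope -/
noncomputable def yc : X := fun _ => 1 / Real.sqrt 5

theorem lift_yc : lift yc = (1 / Real.sqrt 5) • vc := by
  have h5 : (0:ℝ) < Real.sqrt 5 := Real.sqrt_pos.2 (by norm_num)
  have hs : Real.sqrt 5 ^ 2 = 5 := Real.sq_sqrt (by norm_num)
  have h := eq_lift (v := (1 / Real.sqrt 5) • vc) (by
    rw [bl_smul_left, bl_smul_right, bl_vc_vc]
    field_simp
    linarith) (by
    simp only [Pi.smul_apply, vc, o, Sum.elim_inr, smul_eq_mul]
    positivity)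
  rw [h]
  congr 1
  ext i
  simp [yc, vc]

theorem yc_interior (a : Fin 10) : 0 < bl (nr a) (lift yc) := by
  rw [lift_yc, bl_smul_right, bl_nr_vc, mul_one]
  positivity

theorem yc_mem_PP : yc ∈ PP := fun a => (yc_interior a).le

theorem rep_injective : Function.Injective rep := by
  rw [injective_iff_map_eq_one]
  intro w hw
  by_contra hne
  apply act_not_mem_PP hne yc_interior
  rw [hw, act_one]
  exact yc_mem_PP

theorem rf_mem_GZ (a : Fin 10) : rf a ∈ GZ := by
  refine ⟨rfM_inG a, fun i j => ?_⟩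
  refine ⟨(if i = j then 1 else 0) - 2 * (nv a i * (if j = o then - nv a j else nv a j)), ?_⟩
  rw [rf_val]
  unfold rfM
  rw [Matrix.sub_apply, Matrix.one_apply, Matrix.smul_apply, Matrix.vecMulVec_apply]
  have : (J *ᵥ nr a) j = if j = o then - nr a j else nr a j := by
    rcases j with j | j
    · simp [J, Matrix.mulVec, dotProduct, Fintype.sum_sum_type, Matrix.fromBlocks_apply₁₁,
        Matrix.fromBlocks_apply₁₂, Matrix.one_apply]
    · simp [J, Matrix.mulVec, dotProduct, Fintype.sum_sum_type, Matrix.fromBlocks_apply₂₁,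
        Matrix.fromBlocks_apply₂₂, o]
  rw [this]
  unfold nr
  push_cast
  rw [smul_eq_mul]

theorem Wg_le_GZ : Wg ≤ GZ := by
  rintro g ⟨w, rfl⟩
  obtain ⟨l, rfl⟩ := csC.wordProd_surjective w
  induction l with
  | nil => rw [csC.wordProd_nil, map_one]; exact GZ.one_mem
  | cons a l ih =>
    rw [csC.wordProd_cons, map_mul, rep_simple]
    exact GZ.mul_mem (rf_mem_GZ a) ih

theorem continuous_entry (i j : I) : Continuous (fun g : GLI => g.val i j) :=
  (Units.continuous_val (M := Mat)).matrix_elem i j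

theorem disc_GZ : Disc GZ := by
  refine ⟨fun γ hγ => hγ.1, ?_⟩
  apply discreteTopology_of_isOpen_singleton_one
  have h : ({1} : Set GZ) = ⋂ i, ⋂ j, {g : GZ | |g.1.val i j - (1 : Mat) i j| < 1} := by
    ext g
    simp only [Set.mem_singleton_iff, Set.mem_iInter, Set.mem_ofPred_eq]
    constructor
    · rintro rfl i j
      simp
    · intro hg
      apply Subtype.ext
      apply Units.ext
      ext i j
      obtain ⟨z, hz⟩ := g.2.2 i j
      have h1 := hg i j
      have h2 : (1 : Mat) i j = ((if i = j then 1 else 0 : ℤ) : ℝ) := by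
        rw [Matrix.one_apply]; push_cast; rfl
      rw [hz, h2, ← Int.cast_sub, ← Int.cast_abs] at h1
      have h1' : |z - (if i = j then 1 else 0)| < 1 := by exact_mod_cast h1
      rw [Int.abs_lt_one_iff, sub_eq_zero] at h1'
      show g.1.val i j = (1 : Mat) i j
      rw [hz, h2, h1']
  rw [h]
  refine isOpen_iInter_of_finite (fun i => isOpen_iInter_of_finite (fun j => ?_))
  refine isOpen_lt ?_ continuous_const
  exact (((continuous_entry i j).comp continuous_subtype_val).sub continuous_const).abs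

theorem disc_Wg : Disc Wg := by
  refine ⟨fun γ hγ => (Wg_le_GZ hγ).1, ?_⟩
  have := disc_GZ.disc
  exact DiscreteTopology.of_continuous_injective (β := GZ)
    (f := Subgroup.inclusion Wg_le_GZ) (by
      apply Continuous.subtype_mk
      exact continuous_subtype_val) (Subgroup.inclusion_injective _)

end Pool.Agent.helper21.WB
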