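import Pool.Agent.helper42.WB.L1
import Pool.Agent.helper42.WB.B4a
import Pool.Agent.helper5.WB.L2

/-! Part L6: few conjugates. -/

set_option autoImplicit false
open Matrix MeasureTheory

namespace Pool.Agent.helper21.WB

namespace L6

/-- integral matrices -/
def intM : AddSubgroup Mat where
  carrier := {A | ∀ i j, ∃ z : ℤ, A i j = z}
  zero_mem' := fun i j => ⟨0, by simp⟩
  add_mem' := by
    intro A B hA hB i j
    obtain ⟨a, ha⟩ := hA i j
    obtain ⟨b, hb⟩ := hB i j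
    exact ⟨a + b, by rw [Matrix.add_apply, ha, hb]; push_cast; rfl⟩
  neg_mem' := by
    intro A hA i j
    obtain ⟨a, ha⟩ := hA i j
    exact ⟨-a, by rw [Matrix.neg_apply, ha]; push_cast; rfl⟩

/-- conjugation by `g` -/
def cj (g : GLI) : Mat →+ Mat where
  toFun A := g.val * A * (g⁻¹ : GLI).val
  map_zero' := by simp
  map_add' A B := by rw [Matrix.mul_add, Matrix.add_mul]

/-- `g` comes with scaled integral matrices `B = g⁻¹/t`, `C = m t g`. -/
structure Good (m : ℕ) (g : GLI) (B : Matrix I I ℤ) : Prop where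
  inG : InG g
  ex : ∃ t : ℝ, 0 < t ∧ (g⁻¹ : GLI).val = t • B.map (fun z : ℤ => (z : ℝ)) ∧
    ∃ C : Matrix I I ℤ, ((m : ℝ) * t) • g.val = C.map (fun z : ℤ => (z : ℝ))

theorem card_I : Fintype.card I = 5 := by simp [I]

theorem det_map (B : Matrix I I ℤ) : (B.map (fun z : ℤ => (z : ℝ))).det = (B.det : ℝ) :=
  ((Int.castRingHom ℝ).map_det B).symm

theorem Good.det {m : ℕ} {g : GLI} {B : Matrix I I ℤ} (h : Good m g B) {t : ℝ} (ht : 0 < t)
    (hB : (g⁻¹ : GLI).val = t • B.map (fun z : ℤ => (z : ℝ))) :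
    t ^ 5 * (B.det.natAbs : ℝ) = 1 := by
  have h1 := abs_det_inG h.inG.inv
  rw [hB, Matrix.det_smul, card_I, det_map, abs_mul, abs_of_pos (by positivity)] at h1
  rw [Nat.cast_natAbs, Int.cast_abs]
  exact h1

theorem Good.bound {m : ℕ} (hm : 1 ≤ m) {g : GLI} {B : Matrix I I ℤ} (h : Good m g B) :
    1 ≤ B.det.natAbs ∧ B.det.natAbs ≤ m ^ 5 := by
  obtain ⟨t, ht, hB, C, hC⟩ := h.ex
  have h1 := h.det ht hB
  have h2 := abs_det_inG h.inG
  have h3 : |(C.det : ℝ)| = ((m:ℝ) * t) ^ 5 := by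
    rw [← det_map, ← hC, Matrix.det_smul, card_I, abs_mul, h2, mul_one, abs_of_pos]
    have : (0:ℝ) < m := by exact_mod_cast hm
    positivity
  have hB0 : B.det.natAbs ≠ 0 := by
    intro h0
    rw [h0] at h1
    simp at h1
  have hC0 : 1 ≤ C.det.natAbs := by
    rw [Nat.one_le_iff_ne_zero]
    intro h0
    rw [Int.natAbs_eq_zero] at h0
    rw [h0] at h3
    have : (0:ℝ) < m := by exact_mod_cast hm
    have h6 : 0 < ((m:ℝ) * t) ^ 5 := by positivity
    rw [← h3] at h6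
    simp at h6
  refine ⟨Nat.one_le_iff_ne_zero.2 hB0, ?_⟩
  have h4 : (B.det.natAbs : ℝ) * (C.det.natAbs : ℝ) = (m:ℝ) ^ 5 := by
    rw [Nat.cast_natAbs (α := ℝ) C.det, Int.cast_abs, h3]
    calc (B.det.natAbs : ℝ) * ((m:ℝ) * t) ^ 5 = (m:ℝ) ^ 5 * (t ^ 5 * (B.det.natAbs : ℝ)) := by ring
      _ = _ := by rw [h1, mul_one]
  have h5 : B.det.natAbs * C.det.natAbs = m ^ 5 := by exact_mod_cast h4
  calc B.det.natAbs ≤ B.det.natAbs * C.det.natAbs := Nat.le_mul_of_pos_right _ hC0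
    _ = m ^ 5 := h5

theorem Good.quot {m : ℕ} {g g' : GLI} {B B' : Matrix I I ℤ} (h : Good m g B)
    (h' : Good m g' B') (hdet : B.det.natAbs = B'.det.natAbs)
    (hmod : ∀ i j, ((B i j : ℤ) : ZMod m) = ((B' i j : ℤ) : ZMod m)) : g' * g⁻¹ ∈ GZ := by
  obtain ⟨t, ht, hB, -⟩ := h.ex
  obtain ⟨t', ht', hB', C', hC'⟩ := h'.ex
  have h1 := h.det ht hB
  have h2 := h'.det ht' hB'
  have htt : t = t' := by
    rw [hdet] at h1
    have h3 : (B'.det.natAbs : ℝ) ≠ 0 := by
      intro h0; rw [h0] at h1; simp at h1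
    have h4 : t ^ 5 = t' ^ 5 := mul_right_cancel₀ h3 (h1.trans h2.symm)
    exact (pow_left_inj₀ ht.le ht'.le (by norm_num)).1 h4
  subst htt
  have hD : ∀ i j, ∃ d : ℤ, B i j = B' i j + m * d := by
    intro i j
    have h3 := hmod i j
    rw [ZMod.intCast_eq_intCast_iff_dvd_sub] at h3
    obtain ⟨d, hd⟩ := h3
    exact ⟨-d, by linarith⟩
  choose D hD using hD
  refine mem_GZ.2 ⟨h'.inG.mul h.inG.inv, fun i j => ?_⟩
  have e : (g' * g⁻¹ : GLI).val = 1 + (C'.map (fun z : ℤ => (z : ℝ))) *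
      (Matrix.of fun i j => (D i j : ℝ)) := by
    have e1 : B.map (fun z : ℤ => (z : ℝ)) = B'.map (fun z : ℤ => (z : ℝ)) +
        (m : ℝ) • (Matrix.of fun i j => (D i j : ℝ)) := by
      ext i j
      simp only [Matrix.map_apply, Matrix.add_apply, Matrix.smul_apply, Matrix.of_apply, hD i j,
        smul_eq_mul]
      push_cast
      rfl
    have e2 : g'.val * (g'⁻¹ : GLI).val = 1 := by
      rw [← Units.val_mul, mul_inv_cancel, Units.val_one]
    rw [Units.val_mul, hB, e1, smul_add, Matrix.mul_add, ← hB', e2, ← hC']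
    congr 1
    rw [smul_smul, Matrix.mul_smul, Matrix.smul_mul, mul_comm]
  rw [e]
  refine ⟨(if i = j then 1 else 0) + ∑ k, C' i k * D k j, ?_⟩
  rw [Matrix.add_apply, Matrix.one_apply, Matrix.mul_apply]
  push_cast
  rfl

theorem exists_good {m : ℕ} (hm : 1 ≤ m) {g : GLI} (hg : InG g)
    (hint : ∀ a i j b, ∃ z : ℤ, (m:ℝ) * g.val a i * (g⁻¹ : GLI).val j b = z) :
    ∃ B, Good m g B := by
  have hmR : (0:ℝ) < m := by exact_mod_cast hm
  -- a nonzero entry of `g`
  have hdet := abs_det_inG hg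
  obtain ⟨a0, i0, hy0⟩ : ∃ a i, g.val a i ≠ 0 := by
    by_contra hcon
    push Not at hcon
    have : g.val = 0 := by ext i j; exact hcon i j
    rw [this, Matrix.det_zero, abs_zero] at hdet
    exact zero_ne_one hdet
  have hdet' := abs_det_inG hg.inv
  obtain ⟨j0, b0, hx0⟩ : ∃ a i, (g⁻¹ : GLI).val a i ≠ 0 := by
    by_contra hcon
    push Not at hcon
    have : (g⁻¹ : GLI).val = 0 := by ext i j; exact hcon i j
    rw [this, Matrix.det_zero, abs_zero] at hdet'
    exact zero_ne_one hdet'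
  set A0 : AddSubgroup ℝ := AddSubgroup.closure {x | ∃ j b, x = (g⁻¹ : GLI).val j b} with hA0
  -- every element of `A0` times `m g_{ai}` is an integer
  have hA0int : ∀ x ∈ A0, ∀ a i, ∃ z : ℤ, (m:ℝ) * g.val a i * x = z := by
    intro x hx
    induction hx using AddSubgroup.closure_induction with
    | mem x hx =>
      obtain ⟨j, b, rfl⟩ := hx
      exact fun a i => hint a i j b
    | zero => exact fun a i => ⟨0, by simp⟩
    | add x y _ _ hx hy =>
      intro a i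
      obtain ⟨z, hz⟩ := hx a i
      obtain ⟨w, hw⟩ := hy a i
      exact ⟨z + w, by rw [mul_add, hz, hw]; push_cast; rfl⟩
    | neg x _ hx =>
      intro a i
      obtain ⟨z, hz⟩ := hx a i
      exact ⟨-z, by rw [mul_neg, hz]; push_cast; rfl⟩
  obtain ⟨t0, ht0⟩ : ∃ t0 : ℝ, A0 = AddSubgroup.zmultiples t0 := by
    have hle : A0 ≤ AddSubgroup.zmultiples ((m:ℝ) * g.val a0 i0)⁻¹ := by
      intro x hx
      obtain ⟨z, hz⟩ := hA0int x hx a0 i0
      rw [AddSubgroup.mem_zmultiples_iff]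
      refine ⟨z, ?_⟩
      rw [zsmul_eq_mul, ← hz]
      have : (m:ℝ) * g.val a0 i0 ≠ 0 := mul_ne_zero hmR.ne' hy0
      field_simp
    obtain ⟨⟨t, ht⟩, htg⟩ := (AddSubgroup.isAddCyclic (A0.addSubgroupOf
      (AddSubgroup.zmultiples ((m:ℝ) * g.val a0 i0)⁻¹))).exists_generator
    refine ⟨t.1, ?_⟩
    apply le_antisymm
    · intro x hx
      obtain ⟨k, hk⟩ := AddSubgroup.mem_zmultiples_iff.1 (htg ⟨⟨x, hle hx⟩, hx⟩)
      rw [AddSubgroup.mem_zmultiples_iff]
      refine ⟨k, ?_⟩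
      have := congrArg (fun z => ((z.1 : AddSubgroup.zmultiples ((m:ℝ) * g.val a0 i0)⁻¹) : ℝ)) hk
      simpa using this
    · rw [AddSubgroup.zmultiples_le]
      exact ht
  have ht0ne : t0 ≠ 0 := by
    intro h0
    have : (g⁻¹ : GLI).val j0 b0 ∈ A0 := AddSubgroup.subset_closure ⟨j0, b0, rfl⟩
    rw [ht0, h0, AddSubgroup.zmultiples_zero_eq_bot, AddSubgroup.mem_bot] at this
    exact hx0 this
  have hB : ∀ j b, ∃ z : ℤ, (g⁻¹ : GLI).val j b = |t0| * z := by
    intro j b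
    have : (g⁻¹ : GLI).val j b ∈ A0 := AddSubgroup.subset_closure ⟨j, b, rfl⟩
    rw [ht0, AddSubgroup.mem_zmultiples_iff] at this
    obtain ⟨k, hk⟩ := this
    rcases abs_choice t0 with h | h
    · exact ⟨k, by rw [h, ← hk, zsmul_eq_mul]; ring⟩
    · exact ⟨-k, by rw [h, ← hk, zsmul_eq_mul]; push_cast; ring⟩
  have hC : ∀ a i, ∃ z : ℤ, (m:ℝ) * |t0| * g.val a i = z := by
    intro a i
    have ht0mem : t0 ∈ A0 := by rw [ht0]; exact AddSubgroup.mem_zmultiples t0
    obtain ⟨z, hz⟩ := hA0int t0 ht0mem a i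
    rcases abs_choice t0 with h | h
    · exact ⟨z, by rw [h, ← hz]; ring⟩
    · exact ⟨-z, by rw [h]; push_cast; rw [← hz]; ring⟩
  choose B hB using hB
  choose C hC using hC
  refine ⟨Matrix.of B, hg, |t0|, abs_pos.2 ht0ne, ?_, Matrix.of C, ?_⟩
  · ext j b
    rw [hB]
    rfl
  · ext a i
    rw [Matrix.smul_apply, smul_eq_mul, hC]
    rfl

end L6

theorem card_conj_le (m n : ℕ) (hm : 1 ≤ m) (hn : 1 ≤ n) (H : Subgroup GLI) (_hH : H ≤ Wg)
    (hspan : ∀ i j : I, (m : ℝ) • Matrix.single i j (1 : ℝ) ∈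
      AddSubgroup.closure {A : Mat | ∃ h ∈ H, A = h.val})
    (T : Finset (Subgroup GLI))
    (hT : ∀ H' ∈ T, H' ≤ Wg ∧ H'.relIndex Wg = n ∧ Conj H H') :
    T.card ≤ m ^ 30 * (Wg.relIndex GZ * n) := by
  classical
  have hgood : ∀ H' ∈ T, ∃ g : GLI, ∃ B, L6.Good m g B ∧ ∀ h, h ∈ H' ↔ g⁻¹ * h * g ∈ H := by
    intro H' hH'
    obtain ⟨hle, -, g, hg, hgH⟩ := hT H' hH'
    have hsub : AddSubgroup.closure {A : Mat | ∃ h ∈ H, A = h.val} ≤ L6.intM.comap (L6.cj g) := by
      rw [AddSubgroup.closure_le]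
      rintro A ⟨h, hh, rfl⟩
      have h1 : g * h * g⁻¹ ∈ H' := by
        rw [hgH]
        have : g⁻¹ * (g * h * g⁻¹) * g = h := by group
        rwa [this]
      exact (Wg_le_GZ (hle h1)).2
    obtain ⟨B, hB⟩ := L6.exists_good hm hg (by
      intro a i j b
      obtain ⟨z, hz⟩ := hsub (hspan i j) a b
      refine ⟨z, ?_⟩
      rw [← hz]
      show _ = (g.val * ((m : ℝ) • Matrix.single i j (1 : ℝ)) * (g⁻¹ : GLI).val) a b
      rw [Matrix.mul_smul, Matrix.smul_mul, Matrix.smul_apply, Matrix.mul_apply]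
      have : ∀ k, (g.val * Matrix.single i j (1:ℝ)) a k = if k = j then g.val a i else 0 := by
        intro k
        by_cases hk : k = j
        · subst hk
          rw [if_pos rfl, Matrix.mul_single_apply_same, mul_one]
        · rw [if_neg hk, Matrix.mul_single_apply_of_ne _ _ _ _ _ hk]
      simp only [this, ite_mul, zero_mul, Finset.sum_ite_eq', Finset.mem_univ, if_true,
        smul_eq_mul]
      ring)
    exact ⟨g, B, hB, hgH⟩
  choose! g B hgB hconj using hgood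
  let Φ : Subgroup GLI → ℕ × (I → I → ZMod m) := fun H' =>
    ((B H').det.natAbs, fun i j => ((B H' i j : ℤ) : ZMod m))
  have hR0 : Wg.relIndex GZ ≠ 0 := relIndex_Wg_GZ
  have : NeZero m := ⟨by omega⟩
  have himg : T.image Φ ⊆ (Finset.Icc 1 (m ^ 5)) ×ˢ (Finset.univ : Finset (I → I → ZMod m)) := by
    intro x hx
    rw [Finset.mem_image] at hx
    obtain ⟨H', hH', rfl⟩ := hx
    rw [Finset.mem_product]
    exact ⟨Finset.mem_Icc.2 ((hgB H' hH').bound hm), Finset.mem_univ _⟩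
  have hcardimg : (T.image Φ).card ≤ m ^ 30 := by
    refine (Finset.card_le_card himg).trans ?_
    rw [Finset.card_product, Nat.card_Icc, Finset.card_univ, Fintype.card_fun, Fintype.card_fun,
      L6.card_I, ZMod.card, Nat.add_sub_cancel, ← pow_mul, ← pow_add]
  have hfib : ∀ x ∈ T.image Φ, (T.filter (fun H' => Φ H' = x)).card ≤ Wg.relIndex GZ * n := by
    intro x hx
    rw [Finset.mem_image] at hx
    obtain ⟨H0, hH0, rfl⟩ := hx
    have hidx : H0.relIndex GZ = n * Wg.relIndex GZ := by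
      rw [← Subgroup.relIndex_mul_relIndex H0 Wg GZ (hT H0 hH0).1 Wg_le_GZ, (hT H0 hH0).2.1]
    have hfin : Finite (GZ ⧸ H0.subgroupOf GZ) := by
      apply Nat.finite_of_card_ne_zero
      change (H0.subgroupOf GZ).index ≠ 0
      change H0.relIndex GZ ≠ 0
      rw [hidx]
      exact Nat.mul_ne_zero (by omega) hR0
    have hmem : ∀ H' : {x // x ∈ T.filter (fun H' => Φ H' = Φ H0)}, g H'.1 * (g H0)⁻¹ ∈ GZ := by
      rintro ⟨H', hH'⟩
      rw [Finset.mem_filter] at hH'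
      have h1 := congrArg Prod.fst hH'.2
      have h2 := congrArg Prod.snd hH'.2
      exact (hgB H0 hH0).quot (hgB H' hH'.1) h1.symm (fun i j => (congrFun (congrFun h2 i) j).symm)
    have hinj : Function.Injective (fun H' : {x // x ∈ T.filter (fun H' => Φ H' = Φ H0)} =>
        (QuotientGroup.mk (⟨g H'.1 * (g H0)⁻¹, hmem H'⟩ : GZ) : GZ ⧸ H0.subgroupOf GZ)) := by
      rintro ⟨H1, h1⟩ ⟨H2, h2⟩ h12
      have h3 := QuotientGroup.eq.1 h12
      rw [Subgroup.mem_subgroupOf] at h3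
      have h4 : (g H1 * (g H0)⁻¹)⁻¹ * (g H2 * (g H0)⁻¹) ∈ H0 := h3
      rw [Finset.mem_filter] at h1 h2
      have c0 := hconj H0 hH0
      have c1 := hconj H1 h1.1
      have c2 := hconj H2 h2.1
      have hk : (g H1)⁻¹ * g H2 ∈ H := by
        have := (c0 _).1 h4
        have e : (g H0)⁻¹ * ((g H1 * (g H0)⁻¹)⁻¹ * (g H2 * (g H0)⁻¹)) * g H0
            = (g H1)⁻¹ * g H2 := by group
        rwa [e] at this
      apply Subtype.ext
      ext y
      rw [c1, c2]
      constructor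
      · intro hy
        have e : (g H2)⁻¹ * y * g H2
            = ((g H1)⁻¹ * g H2)⁻¹ * ((g H1)⁻¹ * y * g H1) * ((g H1)⁻¹ * g H2) := by group
        rw [e]
        exact H.mul_mem (H.mul_mem (H.inv_mem hk) hy) hk
      · intro hy
        have e : (g H1)⁻¹ * y * g H1
            = ((g H1)⁻¹ * g H2) * ((g H2)⁻¹ * y * g H2) * ((g H1)⁻¹ * g H2)⁻¹ := by group
        rw [e]
        exact H.mul_mem (H.mul_mem hk hy) (H.inv_mem hk)
    have h5 := Nat.card_le_card_of_injective _ hinj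
    rw [Nat.card_eq_fintype_card, Fintype.card_coe] at h5
    refine h5.trans ?_
    show (H0.subgroupOf GZ).index ≤ _
    show H0.relIndex GZ ≤ _
    rw [hidx, mul_comm]
  calc T.card ≤ (Wg.relIndex GZ * n) * (T.image Φ).card :=
        Finset.card_le_mul_card_image T _ hfib
    _ ≤ (Wg.relIndex GZ * n) * m ^ 30 := by gcongr
    _ = m ^ 30 * (Wg.relIndex GZ * n) := mul_comm _ _

end Pool.Agent.helper21.WB
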