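import Pool.Agent.helper21.WB.Basic
import Pool.Agent.helper52.Cox.Root

/-!
Part L, definitions: the right-angled Coxeter group with ten generators in `O(4,1; ℤ)`.

The ten facets of the polytope `PP` are `x_i ≥ 0` and `x_0 - x_i - x_j ≥ 0`.
-/

set_option autoImplicit false
open Matrix MeasureTheory

namespace Pool.Agent.helper21.WB

/-- the pairs of indices of the last six facets -/
def prs : Fin 10 → Fin 4 × Fin 4 :=
  ![(0,0),(0,0),(0,0),(0,0),(0,1),(0,2),(0,3),(1,2),(1,3),(2,3)]

/-- the (integral) inner normals of the ten facets: `e_0, e_1, e_2, e_3` and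
`- e_i - e_j - e_o` (`i < j`), so that `⟨n, x⟩ = x_i` and `⟨n, x⟩ = x_o - x_i - x_j`. -/
def nvt : Fin 10 → Fin 5 → ℤ :=
  ![![1,0,0,0,0], ![0,1,0,0,0], ![0,0,1,0,0], ![0,0,0,1,0],
    ![-1,-1,0,0,-1], ![-1,0,-1,0,-1], ![-1,0,0,-1,-1], ![0,-1,-1,0,-1], ![0,-1,0,-1,-1],
    ![0,0,-1,-1,-1]]

/-- the same with the index type `I` -/
def nv (a : Fin 10) : I → ℤ := Sum.elim (fun i => nvt a i.castSucc) (fun _ => nvt a 4)

/-- Gram matrix (`1` on the diagonal, `0` or `-1` off the diagonal) -/
def gr (a b : Fin 10) : ℤ :=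
  nvt a 0 * nvt b 0 + nvt a 1 * nvt b 1 + nvt a 2 * nvt b 2 + nvt a 3 * nvt b 3
    - nvt a 4 * nvt b 4

theorem gr_self (a : Fin 10) : gr a a = 1 := by revert a; decide

theorem gr_comm (a b : Fin 10) : gr a b = gr b a := by revert a b; decide

theorem gr_cases (a b : Fin 10) (h : a ≠ b) : gr a b = 0 ∨ gr a b = -1 := by
  revert a b; decide

/-- the real normals -/
noncomputable def nr (a : Fin 10) : I → ℝ := fun i => (nv a i : ℝ)

theorem bl_nr (a b : Fin 10) : bl (nr a) (nr b) = (gr a b : ℝ) := by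
  rw [bl_apply, Fin.sum_univ_four]
  unfold gr nr nv o
  simp only [Sum.elim_inl, Sum.elim_inr]
  push_cast
  rfl

/-- the fundamental polytope -/
def PP : Set X := {y | ∀ a, 0 ≤ bl (nr a) (lift y)}

/-- its Coxeter matrix: right angled -/
def cmx : CoxeterMatrix (Fin 10) where
  M := Matrix.of fun a b => if a = b then 1 else if gr a b = 0 then 2 else 0
  isSymm := by
    apply Matrix.IsSymm.ext
    intro a b
    simp only [Matrix.of_apply, gr_comm a b, eq_comm (a := a) (b := b)]
  diagonal := by intro a; simp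
  off_diagonal := by
    intro a b h
    simp only [Matrix.of_apply, if_neg h]
    split_ifs <;> decide

theorem cmx_apply (a b : Fin 10) :
    cmx a b = if a = b then 1 else if gr a b = 0 then 2 else 0 := rfl

/-- the abstract Coxeter group -/
abbrev WC : Type := cmx.Group

/-- its Coxeter system -/
abbrev csC : CoxeterSystem cmx WC := cmx.toCoxeterSystem

/-- the matrix of the reflection `x ↦ x - 2 ⟨n, x⟩ n` -/
noncomputable def rfM (a : Fin 10) : Mat := 1 - (2:ℝ) • Matrix.vecMulVec (nr a) (J *ᵥ nr a)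

theorem rfM_mulVec (a : Fin 10) (v : I → ℝ) :
    rfM a *ᵥ v = v - (2 * bl (nr a) v) • nr a := by
  unfold rfM
  rw [Matrix.sub_mulVec, Matrix.one_mulVec, Matrix.smul_mulVec, Matrix.vecMulVec_mulVec]
  have : J *ᵥ nr a ⬝ᵥ v = bl (nr a) v := by
    rw [bl_comm]; unfold bl; rw [dotProduct_comm]
  rw [this]
  ext i
  simp
  ring

theorem mat_ext {A B : Mat} (h : ∀ v, A *ᵥ v = B *ᵥ v) : A = B := by
  ext i j
  have := congrFun (h (Pi.single j 1)) i
  simpa using this

theorem rfM_sq (a : Fin 10) : rfM a * rfM a = 1 := by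
  apply mat_ext
  intro v
  rw [← Matrix.mulVec_mulVec, rfM_mulVec, rfM_mulVec, Matrix.one_mulVec, bl_sub_right,
    bl_smul_right, bl_nr, gr_self]
  ext i
  simp
  ring

/-- the reflection as an invertible matrix -/
noncomputable def rf (a : Fin 10) : GLI := ⟨rfM a, rfM a, rfM_sq a, rfM_sq a⟩

@[simp] theorem rf_val (a : Fin 10) : (rf a).val = rfM a := rfl

theorem rf_mul_self (a : Fin 10) : rf a * rf a = 1 := Units.ext (rfM_sq a)

theorem rfM_comm {a b : Fin 10} (h : gr a b = 0) : rfM a * rfM b = rfM b * rfM a := by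
  apply mat_ext
  intro v
  rw [← Matrix.mulVec_mulVec, ← Matrix.mulVec_mulVec, rfM_mulVec, rfM_mulVec, rfM_mulVec,
    rfM_mulVec, bl_sub_right, bl_smul_right, bl_sub_right, bl_smul_right, bl_nr, bl_nr,
    gr_comm b a, h]
  ext i
  simp
  ring

theorem rf_comm {a b : Fin 10} (h : gr a b = 0) : rf a * rf b = rf b * rf a :=
  Units.ext (rfM_comm h)

theorem rf_liftable : cmx.IsLiftable rf := by
  intro a b
  rw [cmx_apply]
  by_cases hab : a = b
  · subst hab; simp [rf_mul_self]
  · rw [if_neg hab]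
    by_cases h : gr a b = 0
    · rw [if_pos h, pow_two]
      calc rf a * rf b * (rf a * rf b) = rf a * (rf b * rf a) * rf b := by group
        _ = rf a * (rf a * rf b) * rf b := by rw [rf_comm h]
        _ = (rf a * rf a) * (rf b * rf b) := by group
        _ = 1 := by rw [rf_mul_self, rf_mul_self, one_mul]
    · rw [if_neg h, pow_zero]

/-- the representation of the Coxeter group by Lorentz matrices -/
noncomputable def rep : WC →* GLI := csC.lift ⟨rf, rf_liftable⟩

@[simp] theorem rep_simple (a : Fin 10) : rep (csC.simple a) = rf a :=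
  csC.lift_apply_simple rf_liftable a

/-- the reflection group -/
noncomputable def Wg : Subgroup GLI := rep.range

/-- the integral Lorentz group `O^+(4,1;ℤ)` -/
def GZ : Subgroup GLI where
  carrier := {g | InG g ∧ ∀ i j, ∃ z : ℤ, g.val i j = z}
  mul_mem' := by
    rintro g h ⟨hg, hg'⟩ ⟨hh, hh'⟩
    refine ⟨hg.mul hh, fun i j => ?_⟩
    choose a ha using hg'
    choose b hb using hh'
    refine ⟨∑ k, a i k * b k j, ?_⟩
    rw [Units.val_mul, Matrix.mul_apply]
    push_cast
    exact Finset.sum_congr rfl (fun k _ => by rw [ha, hb])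
  one_mem' := by
    refine ⟨InG.one, fun i j => ⟨if i = j then 1 else 0, ?_⟩⟩
    simp [Matrix.one_apply]
  inv_mem' := by
    rintro g ⟨hg, hg'⟩
    refine ⟨hg.inv, fun i j => ?_⟩
    rw [hg.inv_val]
    choose a ha using hg'
    have hJ : ∀ i j, J i j = (if i = j then (if i = o then -1 else 1) else 0 : ℝ) := by
      intro i j
      rcases i with i | i <;> rcases j with j | j <;> simp [J, Matrix.one_apply, o]
    have hJs : J = Matrix.diagonal (fun i => (if i = o then -1 else 1 : ℝ)) := by
      ext i j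
      rw [hJ, Matrix.diagonal_apply]
    refine ⟨(if i = o then -1 else 1) * a j i * (if j = o then -1 else 1), ?_⟩
    rw [hJs, Matrix.mul_diagonal, Matrix.diagonal_mul, Matrix.transpose_apply, ha]
    push_cast
    rfl

theorem mem_GZ {g : GLI} : g ∈ GZ ↔ InG g ∧ ∀ i j, ∃ z : ℤ, g.val i j = z := Iff.rfl

end Pool.Agent.helper21.WB
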